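import Pool.Agent.Lib_MP_752436_nb.Straight

/-!
Piece C0: a function which is strictly monotone along disjoint arcs in the open disc.
-/

open MeasureTheory Metric Set Filter
open scoped ContDiff Topology

namespace Pool.Agent.Lib_MP_752436_cv

open Pool.Agent.Lib_MP_752436_gt Pool.Agent.Lib_MP_752436_tp Pool.Agent.Lib_MP_752436_rb

/-- `rb/Graph` `exists_axes`, `exists_graph` and `rb/Shrink` `exists_shrink` (see
`nb/Straight` `exists_graphDisc`): a diffeomorphism `Ψ` of the plane maps the arcs (after a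
rotation `R`) into the graph of a smooth function; take `h x = (Ψ (R x)) 0`. The velocity of a curve
on `[0, 1]` in a graph `y = G x` is `(x', G' x')`, and it is not zero. -/
theorem exists_mono {n : ℕ} {α : Fin n → ℝ → Plane} (harc : ∀ i, IsArc (α i))
    (hin : ∀ i, ∀ s ∈ Icc (0 : ℝ) 1, α i s ∈ ball (0 : Plane) 1)
    (hd : ∀ i j, i ≠ j → Disjoint (α i '' Icc 0 1) (α j '' Icc 0 1)) :
    ∃ h : Plane → ℝ, ContDiff ℝ ∞ h ∧
      ∀ i, ∀ s ∈ Icc (0 : ℝ) 1, fderiv ℝ h (α i s) (deriv (α i) s) ≠ 0 := by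
  have h00 : (0 : ℝ) ∈ Icc (0 : ℝ) 1 := by simp
  obtain ⟨R, hR1, hR2⟩ := exists_axes (fun i => α i 0) (fun i => deriv (α i) 0)
    (fun i j hij h0 => Set.disjoint_left.1 (hd i j hij) ⟨0, h00, rfl⟩ ⟨0, h00, h0.symm⟩)
    (fun i => (harc i).regular 0 h00)
  have hRd : ∀ i s, HasDerivAt (fun s => R (α i s)) (R (deriv (α i) s)) s := fun i s => by
    have h2 := (((harc i).smooth.differentiable (by simp)) s).hasDerivAt
    exact R.toContinuousLinearEquiv.hasFDerivAt.comp_hasDerivAt s h2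
  have hR0 : ∀ u : Plane, u ≠ 0 → R u ≠ 0 := fun u hu h0 =>
    hu (R.injective (by rw [h0, map_zero]))
  have harc' : ∀ i, IsArc (fun s => R (α i s)) := fun i =>
    ⟨R.contDiff.comp (harc i).smooth, fun s hs => by
      rw [(hRd i s).deriv]
      exact hR0 _ ((harc i).regular s hs), fun x hx y hy hxy =>
      (harc i).inj hx hy (R.injective hxy)⟩
  have hin' : ∀ i, ∀ s ∈ Icc (0 : ℝ) 1, R (α i s) ∈ ball (0 : Plane) 1 := by
    intro i s hs
    have h1 := hin i s hs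
    rw [mem_ball_zero_iff] at h1 ⊢
    rwa [R.norm_map]
  have hd' : ∀ i j, i ≠ j →
      Disjoint ((fun s => R (α i s)) '' Icc 0 1) ((fun s => R (α j s)) '' Icc 0 1) := by
    intro i j hij
    rw [Set.disjoint_left]
    rintro x ⟨s, hs, hsx⟩ ⟨t, ht, htx⟩
    have h1 : R (α i s) = R (α j t) := by
      have e1 : R (α i s) = x := hsx
      have e2 : R (α j t) = x := htx
      rw [e1, e2]
    exact Set.disjoint_left.1 (hd i j hij) ⟨s, hs, rfl⟩ ⟨t, ht, (R.injective h1).symm⟩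
  obtain ⟨c, hc, hc1, G, hG, _, _, h3⟩ := exists_graph (fun i => (harc' i).smooth)
    (fun i => hin' i 0 h00) hR1 (fun i => by
      rw [(hRd i 0).deriv]
      exact hR2 i)
  obtain ⟨Ψ, hΨ, hΨα⟩ := exists_shrink harc' hin' hd' hc hc1
  have hΨ1 : ContDiff ℝ ∞ (Ψ 1) := hΨ.smooth.comp (contDiff_const.prodMk contDiff_id)
  have hproj : ContDiff ℝ ∞ fun z : Plane => z 0 :=
    (EuclideanSpace.proj (0 : Fin 2) : EuclideanSpace ℝ (Fin 2) →L[ℝ] ℝ).contDiff
  have hhs : ContDiff ℝ ∞ (fun x : Plane => (Ψ 1 (R x)) 0) :=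
    hproj.comp (hΨ1.comp R.contDiff)
  refine ⟨fun x => (Ψ 1 (R x)) 0, hhs, ?_⟩
  intro i s hs
  -- the derivative along the arc
  have e1 : HasDerivAt (fun s => (Ψ 1 (R (α i s))) 0)
      (fderiv ℝ (fun x : Plane => (Ψ 1 (R x)) 0) (α i s) (deriv (α i) s)) s :=
    (((hhs.differentiable (by simp)) (α i s)).hasFDerivAt).comp_hasDerivAt s
      ((((harc i).smooth.differentiable (by simp)) s).hasDerivAt)
  have hcs : ∀ s ∈ Icc (0 : ℝ) 1, c * s ∈ Icc (0 : ℝ) c := fun s hs =>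
    ⟨mul_nonneg hc.le hs.1, by nlinarith [hs.2]⟩
  have hcoord : ∀ (k : Fin 2) (t : ℝ), HasDerivAt (fun t => (R (α i t)) k)
      ((R (deriv (α i) t)) k) t := by
    intro k t
    exact (EuclideanSpace.proj k : EuclideanSpace ℝ (Fin 2) →L[ℝ] ℝ).hasFDerivAt.comp_hasDerivAt t
      (hRd i t)
  have e2 : HasDerivAt (fun s => (R (α i (c * s))) 0) ((R (deriv (α i) (c * s))) 0 * c) s := by
    have h4 : HasDerivAt (fun s : ℝ => c * s) c s := by
      have := (hasDerivAt_id s).const_mul c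
      rwa [mul_one] at this
    exact (hcoord 0 (c * s)).comp s h4
  have huniq : UniqueDiffWithinAt ℝ (Icc (0 : ℝ) 1) s := uniqueDiffOn_Icc zero_lt_one s hs
  have e3 : fderiv ℝ (fun x : Plane => (Ψ 1 (R x)) 0) (α i s) (deriv (α i) s) =
      (R (deriv (α i) (c * s))) 0 * c := by
    refine UniqueDiffWithinAt.eq_deriv (Icc (0 : ℝ) 1) huniq e1.hasDerivWithinAt ?_
    refine e2.hasDerivWithinAt.congr (fun x hx => ?_) ?_
    · exact congrArg (fun z : Plane => z 0) (hΨα i x hx)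
    · exact congrArg (fun z : Plane => z 0) (hΨα i s hs)
  have ht : c * s ∈ Icc (0 : ℝ) c := hcs s hs
  have ht1 : c * s ∈ Icc (0 : ℝ) 1 := ⟨ht.1, ht.2.trans hc1⟩
  rw [e3]
  refine mul_ne_zero ?_ hc.ne'
  intro h0
  have huniq2 : UniqueDiffWithinAt ℝ (Icc (0 : ℝ) c) (c * s) := uniqueDiffOn_Icc hc _ ht
  have e4 : HasDerivWithinAt (fun t => (R (α i t)) 1) ((R (deriv (α i) (c * s))) 1)
      (Icc (0 : ℝ) c) (c * s) := (hcoord 1 (c * s)).hasDerivWithinAt
  have e5 : HasDerivAt (fun t => G ((R (α i t)) 0))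
      (deriv G ((R (α i (c * s))) 0) * (R (deriv (α i) (c * s))) 0) (c * s) :=
    (((hG.differentiable (by simp)) _).hasDerivAt).comp (c * s) (hcoord 0 (c * s))
  have e6 : (R (deriv (α i) (c * s))) 1 =
      deriv G ((R (α i (c * s))) 0) * (R (deriv (α i) (c * s))) 0 := by
    refine UniqueDiffWithinAt.eq_deriv (Icc (0 : ℝ) c) huniq2 e4 ?_
    exact e5.hasDerivWithinAt.congr (fun x hx => (h3 i x hx).2) (h3 i _ ht).2
  rw [h0, mul_zero] at e6
  apply hR0 _ ((harc i).regular _ ht1)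
  ext k
  fin_cases k
  · exact h0
  · exact e6

end Pool.Agent.Lib_MP_752436_cv
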