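import Pool.Agent.Lib_MP_752436_cv.SmoothCurves
import Pool.Agent.Lib_MP_752436_rb.Defs

/-!
Piece C3: discs in general position without triple points and closed double curves are ribbon
immersions.
-/

open MeasureTheory Metric Set Filter
open scoped ContDiff Topology

namespace Pool.Agent.Lib_MP_752436_cv

open Pool.Agent.Lib_MP_752436_gt Pool.Agent.Lib_MP_752436_tp Pool.Agent.Lib_MP_752436_rb

/-- Two different points of the disc with the same shadow are comparable. -/
private theorem rgp_comparable {F : Plane → EuclideanSpace ℝ (Fin 4)} (hF : IsSliceDisc F)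
    {x y : Plane} (hx : x ∈ closedBall (0 : Plane) 1) (hy : y ∈ closedBall (0 : Plane) 1)
    (hne : x ≠ y) (he : shadow F x = shadow F y) :
    (x, y) ∈ DoubleSet F ∨ (y, x) ∈ DoubleSet F := by
  rcases lt_trichotomy (F x 3) (F y 3) with h | h | h
  · exact Or.inr ⟨hy, hx, he.symm, h⟩
  · exact absurd (od_eq_of_shadow hF hx hy he h) hne
  · exact Or.inl ⟨hx, hy, he, h⟩

private theorem rgp_snd {F : Plane → EuclideanSpace ℝ (Fin 4)} (hF : IsSliceDisc F)
    (h3 : ∀ x y z, ¬ Triple F x y z) {x y y' : Plane} (h1 : (x, y) ∈ DoubleSet F)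
    (h2 : (x, y') ∈ DoubleSet F) : y = y' := by
  by_contra hne
  rcases rgp_comparable hF h1.2.1 h2.2.1 hne (h1.2.2.1.symm.trans h2.2.2.1) with h | h
  · exact h3 _ _ _ ⟨h1, h⟩
  · exact h3 _ _ _ ⟨h2, h⟩

private theorem rgp_fst {F : Plane → EuclideanSpace ℝ (Fin 4)} (hF : IsSliceDisc F)
    (h3 : ∀ x y z, ¬ Triple F x y z) {x x' y : Plane} (h1 : (x, y) ∈ DoubleSet F)
    (h2 : (x', y) ∈ DoubleSet F) : x = x' := by
  by_contra hne
  rcases rgp_comparable hF h1.1 h2.1 hne (h1.2.2.1.trans h2.2.2.1.symm) with h | h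
  · exact h3 _ _ _ ⟨h, h2⟩
  · exact h3 _ _ _ ⟨h, h1⟩

/-- The two derivatives along a double curve. -/
private theorem rgp_deriv {F : Plane → EuclideanSpace ℝ (Fin 4)} (hF : IsSliceDisc F)
    {c : ℝ → Plane × Plane} (hc : ContDiff ℝ ∞ c) {a b t : ℝ} (ht : t ∈ Ioo a b)
    (hm : ∀ s ∈ Icc a b, c s ∈ DoubleSet F) :
    fderiv ℝ (shadow F) (c t).1 (deriv (fun s => (c s).1) t) =
      fderiv ℝ (shadow F) (c t).2 (deriv (fun s => (c s).2) t) := by
  have hs : ∀ x, DifferentiableAt ℝ (shadow F) x := fun x =>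
    (od_contDiff_shadow hF).differentiable (by simp) x
  have h1 : DifferentiableAt ℝ (fun s => (c s).1) t :=
    (hc.fst.differentiable (by simp)) t
  have h2 : DifferentiableAt ℝ (fun s => (c s).2) t :=
    (hc.snd.differentiable (by simp)) t
  have e1 : HasDerivAt (fun s => shadow F (c s).1)
      (fderiv ℝ (shadow F) (c t).1 (deriv (fun s => (c s).1) t)) t :=
    HasFDerivAt.comp_hasDerivAt (f := fun s => (c s).1) (l := shadow F) t
      (hs (c t).1).hasFDerivAt h1.hasDerivAt
  have e2 : HasDerivAt (fun s => shadow F (c s).2)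
      (fderiv ℝ (shadow F) (c t).2 (deriv (fun s => (c s).2) t)) t :=
    HasFDerivAt.comp_hasDerivAt (f := fun s => (c s).2) (l := shadow F) t
      (hs (c t).2).hasFDerivAt h2.hasDerivAt
  have e3 : (fun s => shadow F (c s).1) =ᶠ[𝓝 t] fun s => shadow F (c s).2 := by
    filter_upwards [Ioo_mem_nhds ht.1 ht.2] with s hs
    exact (hm s (Ioo_subset_Icc_self hs)).2.2.1
  exact (e1.congr_of_eventuallyEq e3.symm).unique e2

/-- No curve of `exists_smooth_curves` is closed: along a closed curve the derivative of `h` (upper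
point) would be nonzero on the whole period, so `h (c t).1` strictly monotone, but it is
periodic. The arcs are `α i s = (G.c i (len i * s)).1`, `β i s = (G.c i (len i * s)).2`. Injectivity and
disjointness: three different points with the same image would form a triple. -/
theorem ribbonImmersion_of_noTriple {F : Plane → EuclideanSpace ℝ (Fin 4)} (hF : IsSliceDisc F)
    (hg : GeneralPosition F) (h3 : ∀ x y z, ¬ Triple F x y z) {h : Plane → ℝ}
    (hh : ContDiff ℝ ∞ h)
    (hmon : ∀ x y, (x, y) ∈ DoubleSet F → ∀ u w, fderiv ℝ (shadow F) x u =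
      fderiv ℝ (shadow F) y w → fderiv ℝ h x u = 0 → u = 0 ∧ w = 0) :
    RibbonImmersion (shadow F) := by
  obtain ⟨ι, hι, G, hG, hsm⟩ := exists_smooth_curves hF hg
  have hmem : ∀ i, ∀ t ∈ Icc 0 (G.len i), G.c i t ∈ DoubleSet F := fun i t ht => by
    rw [hG.cover]
    exact mem_iUnion.2 ⟨i, mem_image_of_mem _ ht⟩
  have hcl : ∀ i, ¬ G.closed i := by
    intro i hi
    have hL := hG.pos i
    have hφ : ContDiff ℝ ∞ fun t => h (G.c i t).1 := hh.comp (hsm i).fst
    have hper : h (G.c i 0).1 = h (G.c i (G.len i)).1 := by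
      have := hG.periodic i hi 0
      rw [zero_add] at this
      rw [this]
    obtain ⟨t, ht, hd⟩ := exists_deriv_eq_zero hL hφ.continuous.continuousOn hper
    have hf : DifferentiableAt ℝ (fun s => (G.c i s).1) t :=
      ((hsm i).fst.differentiable (by simp)) t
    have hc : HasDerivAt (fun s => h (G.c i s).1)
        (fderiv ℝ h (G.c i t).1 (deriv (fun s => (G.c i s).1) t)) t :=
      HasFDerivAt.comp_hasDerivAt (f := fun s => (G.c i s).1) (l := h) t
        ((hh.differentiable (by simp)) (G.c i t).1).hasFDerivAt hf.hasDerivAt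
    have h0 : fderiv ℝ h (G.c i t).1 (deriv (fun s => (G.c i s).1) t) = 0 := by
      rw [← hc.deriv, hd]
    exact hG.immFst i t (Or.inl hi) (hmon (G.c i t).1 (G.c i t).2
      (hmem i t (Ioo_subset_Icc_self ht)) _ _ (rgp_deriv hF (hsm i) ht (hmem i)) h0).1
  have hscale : ∀ i, ∀ s ∈ Icc (0 : ℝ) 1, G.len i * s ∈ Icc 0 (G.len i) := fun i s hs =>
    ⟨mul_nonneg (hG.pos i).le hs.1, by
      have := mul_le_mul_of_nonneg_left hs.2 (hG.pos i).le
      rwa [mul_one] at this⟩
  have hsmul : ∀ i, ContDiff ℝ ∞ fun s : ℝ => G.c i (G.len i * s) := fun i =>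
    (hsm i).comp (contDiff_const.mul contDiff_id)
  have hder1 : ∀ i s, deriv (fun s : ℝ => (G.c i (G.len i * s)).1) s =
      G.len i • deriv (G.fst i) (G.len i * s) := fun i s => by
    exact deriv_comp_mul_left (G.len i) (G.fst i) s
  have hder2 : ∀ i s, deriv (fun s : ℝ => (G.c i (G.len i * s)).2) s =
      G.len i • deriv (G.snd i) (G.len i * s) := fun i s => by
    exact deriv_comp_mul_left (G.len i) (G.snd i) s
  have hinj : ∀ i, ∀ s ∈ Icc (0 : ℝ) 1, ∀ s' ∈ Icc (0 : ℝ) 1,
      G.c i (G.len i * s) = G.c i (G.len i * s') → s = s' := by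
    intro i s hs s' hs' he
    exact mul_left_cancel₀ (hG.pos i).ne' (hG.injArc i (hcl i) (hscale i s hs) (hscale i s' hs') he)
  have hmemS : ∀ i, ∀ s ∈ Icc (0 : ℝ) 1,
      ((G.c i (G.len i * s)).1, (G.c i (G.len i * s)).2) ∈ DoubleSet F := fun i s hs =>
    hmem i _ (hscale i s hs)
  have hpair : ∀ i, RibbonPair (shadow F) (fun s => (G.c i (G.len i * s)).1)
      (fun s => (G.c i (G.len i * s)).2) := by
    intro i
    constructor
    · refine ⟨(hsmul i).fst, fun s hs => ?_, fun s hs s' hs' he => ?_⟩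
      · rw [hder1]
        exact smul_ne_zero (hG.pos i).ne' (hG.immFst i _ (Or.inr (hscale i s hs)))
      · have he' : (G.c i (G.len i * s)).1 = (G.c i (G.len i * s')).1 := he
        have h1 := hmemS i s hs
        have h2 := hmemS i s' hs'
        rw [he'] at h1
        exact hinj i s hs s' hs' (Prod.ext he' (rgp_snd hF h3 h1 h2))
    · refine ⟨(hsmul i).snd, fun s hs => ?_, fun s hs s' hs' he => ?_⟩
      · rw [hder2]
        exact smul_ne_zero (hG.pos i).ne' (hG.immSnd i _ (Or.inr (hscale i s hs)))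
      · have he' : (G.c i (G.len i * s)).2 = (G.c i (G.len i * s')).2 := he
        have h1 := hmemS i s hs
        have h2 := hmemS i s' hs'
        rw [he'] at h1
        exact hinj i s hs s' hs' (Prod.ext (rgp_fst hF h3 h1 h2) he')
    · intro s hs
      exact hG.fstMem i _ (Or.inr (hscale i s hs))
    · intro s hs
      refine hG.sndArc i (hcl i) _ ⟨mul_pos (hG.pos i) hs.1, ?_⟩
      have := mul_lt_mul_of_pos_left hs.2 (hG.pos i)
      rwa [mul_one] at this
    · have := (hG.ends i (hcl i)).1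
      show (G.c i (G.len i * 0)).2 ∈ _
      rw [mul_zero]
      exact this
    · have := (hG.ends i (hcl i)).2
      show (G.c i (G.len i * 1)).2 ∈ _
      rw [mul_one]
      exact this
    · rw [Set.disjoint_left]
      rintro x ⟨s, hs, rfl⟩ ⟨s', hs', he⟩
      have he' : (G.c i (G.len i * s')).2 = (G.c i (G.len i * s)).1 := he
      have h1 := hmemS i s hs
      have h2 := hmemS i s' hs'
      rw [he'] at h2
      exact h3 _ _ _ ⟨h2, h1⟩
    · intro s hs
      exact (hmemS i s hs).2.2.1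
  have hdis : ∀ i j, i ≠ j →
      Disjoint (shadow F ∘ (fun s => (G.c i (G.len i * s)).1) '' Icc 0 1)
        (shadow F ∘ (fun s => (G.c j (G.len j * s)).1) '' Icc 0 1) := by
    intro i j hij
    rw [Set.disjoint_left]
    rintro p ⟨s, hs, rfl⟩ ⟨s', hs', he⟩
    have he' : shadow F (G.c j (G.len j * s')).1 = shadow F (G.c i (G.len i * s)).1 := he
    have h1 := hmemS i s hs
    have h2 := hmemS j s' hs'
    by_cases hx : (G.c j (G.len j * s')).1 = (G.c i (G.len i * s)).1
    · rw [hx] at h2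
      have h4 : G.c i (G.len i * s) = G.c j (G.len j * s') :=
        Prod.ext hx.symm (rgp_snd hF h3 h1 h2)
      exact Set.disjoint_left.1 (hG.disj i j hij) (mem_image_of_mem _ (hscale i s hs))
        (h4 ▸ mem_image_of_mem _ (hscale j s' hs'))
    · rcases rgp_comparable hF h2.1 h1.1 hx he' with h4 | h4
      · exact h3 _ _ _ ⟨h4, h1⟩
      · exact h3 _ _ _ ⟨h4, h2⟩
  obtain ⟨n, ⟨e⟩⟩ := Finite.exists_equiv_fin ι
  refine ⟨od_contDiff_shadow hF, hg.immersion, n,
    fun k s => (G.c (e.symm k) (G.len (e.symm k) * s)).1,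
    fun k s => (G.c (e.symm k) (G.len (e.symm k) * s)).2, fun k => hpair (e.symm k),
    fun k l hkl => hdis _ _ fun h => hkl (e.symm.injective h), ?_⟩
  · intro x hx y hy hxy hs
    have key : ∀ x y : Plane, (x, y) ∈ DoubleSet F → ∃ k : Fin n, ∃ s ∈ Icc (0 : ℝ) 1,
        x = (G.c (e.symm k) (G.len (e.symm k) * s)).1 ∧
        y = (G.c (e.symm k) (G.len (e.symm k) * s)).2 := by
      intro x y hD
      rw [hG.cover] at hD
      obtain ⟨i, t, ht, he⟩ := mem_iUnion.1 hD
      have hL := hG.pos i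
      refine ⟨e i, t / G.len i, ⟨div_nonneg ht.1 hL.le, (div_le_one hL).2 ht.2⟩, ?_⟩
      rw [Equiv.symm_apply_apply, mul_div_cancel₀ _ hL.ne', he]
      exact ⟨rfl, rfl⟩
    rcases rgp_comparable hF hx hy hxy hs with h4 | h4
    · obtain ⟨k, s, hs, h5, h6⟩ := key x y h4
      exact ⟨k, s, hs, Or.inl ⟨h5, h6⟩⟩
    · obtain ⟨k, s, hs, h5, h6⟩ := key y x h4
      exact ⟨k, s, hs, Or.inr ⟨h6, h5⟩⟩

end Pool.Agent.Lib_MP_752436_cv
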