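import Pool.Agent.Lib_MP_752436_ts.RibbonOpen

/-!
Piece C1: nearby projections of a disc whose projection has no triple points.
-/

open MeasureTheory Metric Set Filter
open scoped ContDiff Topology

namespace Pool.Agent.Lib_MP_752436_cv

open Pool.Agent.Lib_MP_752436_gt Pool.Agent.Lib_MP_752436_tp Pool.Agent.Lib_MP_752436_rb
  Pool.Agent.Lib_MP_752436_ts

variable {F : Plane → EuclideanSpace ℝ (Fin 4)}

/-- A map with an injective strict derivative at `c` is injective near `c`. -/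
private theorem Stable_injOn_of_strict {E F : Type*} [NormedAddCommGroup E] [NormedSpace ℝ E]
    [FiniteDimensional ℝ E] [NormedAddCommGroup F] [NormedSpace ℝ F] {G : E → F}
    {G' : E →L[ℝ] F} {c : E} (hG : HasStrictFDerivAt G G' c) (hinj : Function.Injective G') :
    ∃ N ∈ 𝓝 c, InjOn G N := by
  obtain ⟨K, hK, hanti⟩ := G'.toLinearMap.exists_antilipschitzWith (LinearMap.ker_eq_bot.2 hinj)
  have hK' : (0 : ℝ) < K := by exact_mod_cast hK
  have hb := hG.isLittleO.def (c := 1 / (2 * (K : ℝ))) (by positivity)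
  obtain ⟨N, M, hN1, hM1, hM2, hM3, hNM⟩ := mem_nhds_prod_iff'.1 hb
  refine ⟨N ∩ M, inter_mem (hN1.mem_nhds hM1) (hM2.mem_nhds hM3), ?_⟩
  intro x hx y hy hxy
  have h1 : ‖G x - G y - G' (x - y)‖ ≤ 1 / (2 * (K : ℝ)) * ‖x - y‖ :=
    hNM (Set.mk_mem_prod hx.1 hy.2)
  have h2 : dist x y ≤ K * dist (G' x) (G' y) := hanti.le_mul_dist x y
  rw [dist_eq_norm, dist_eq_norm, ← map_sub] at h2
  rw [hxy, sub_self, zero_sub, norm_neg] at h1
  have h3 : ‖x - y‖ ≤ K * (1 / (2 * (K : ℝ)) * ‖x - y‖) := h2.trans (by gcongr)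
  have h4 : K * (1 / (2 * (K : ℝ)) * ‖x - y‖) = ‖x - y‖ / 2 := by field_simp
  rw [h4] at h3
  have h5 : ‖x - y‖ = 0 := by
    have := norm_nonneg (x - y)
    linarith
  exact sub_eq_zero.1 (norm_eq_zero.1 h5)

/-- The projections near `a = 0` are uniformly injective near a point. -/
private theorem Stable_exists_injNear {F : Plane → EuclideanSpace ℝ (Fin 4)}
    (hF : ContDiff ℝ ∞ F) {x : Plane} (him : Function.Injective (fderiv ℝ (shadow F) x)) :
    ∃ N ∈ 𝓝 ((x, 0) : Plane × Space), ∀ y z : Plane, ∀ a : Space, (y, a) ∈ N → (z, a) ∈ N →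
      proj F a y = proj F a z → y = z := by
  set G : Plane × Space → Space × Space := fun p => (shadow F p.1 + F p.1 3 • p.2, p.2) with hG
  have hGs : ContDiff ℝ ∞ G :=
    (((contDiff_shadow_of hF).comp contDiff_fst).add
      (((contDiff_height_ts hF).comp contDiff_fst).smul contDiff_snd)).prodMk contDiff_snd
  have hd : HasFDerivAt G
      (((fderiv ℝ (shadow F) x).comp (ContinuousLinearMap.fst ℝ Plane Space) +
        ((F x 3) • ContinuousLinearMap.snd ℝ Plane Space +
          ((fderiv ℝ (fun y => F y 3) x).comp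
            (ContinuousLinearMap.fst ℝ Plane Space)).smulRight (0 : Space))).prod
        (ContinuousLinearMap.snd ℝ Plane Space)) (x, 0) := by
    have h1 : HasFDerivAt (fun p : Plane × Space => shadow F p.1)
        ((fderiv ℝ (shadow F) x).comp (ContinuousLinearMap.fst ℝ Plane Space)) (x, 0) :=
      HasFDerivAt.comp (g := shadow F) (f := Prod.fst) (x, (0 : Space))
        (((contDiff_shadow_of hF).differentiable (by simp)) x).hasFDerivAt hasFDerivAt_fst
    have h2 : HasFDerivAt (fun p : Plane × Space => F p.1 3)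
        ((fderiv ℝ (fun y => F y 3) x).comp (ContinuousLinearMap.fst ℝ Plane Space)) (x, 0) :=
      HasFDerivAt.comp (g := fun y => F y 3) (f := Prod.fst) (x, (0 : Space))
        (((contDiff_height_ts hF).differentiable (by simp)) x).hasFDerivAt hasFDerivAt_fst
    exact (h1.add (h2.smul hasFDerivAt_snd)).prodMk hasFDerivAt_snd
  have hs := (hGs.contDiffAt (x := (x, (0 : Space)))).hasStrictFDerivAt' hd (by simp)
  obtain ⟨N, hN, hNi⟩ := Stable_injOn_of_strict hs (by
    rw [injective_iff_map_eq_zero]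
    rintro ⟨u, b⟩ hub
    simp only [ContinuousLinearMap.prod_apply, Prod.mk_eq_zero] at hub
    obtain ⟨h1, h2⟩ := hub
    simp only [ContinuousLinearMap.coe_snd'] at h2
    subst h2
    have h3 : fderiv ℝ (shadow F) x u = 0 := by simpa using h1
    rw [(injective_iff_map_eq_zero _).1 him u h3]
    rfl)
  refine ⟨N, hN, fun y z a hy hz h => ?_⟩
  have h1 : G (y, a) = G (z, a) := Prod.ext h rfl
  exact congrArg Prod.fst (hNi hy hz h1)

private theorem Stable_tendsto_apply {E G : Type*} [NormedAddCommGroup E] [NormedSpace ℝ E]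
    [NormedAddCommGroup G] [NormedSpace ℝ G] {A : ℕ → E →L[ℝ] G} {A0 : E →L[ℝ] G} {u : ℕ → E}
    {u0 : E} (hA : Tendsto A atTop (𝓝 A0)) (hu : Tendsto u atTop (𝓝 u0)) :
    Tendsto (fun n => A n (u n)) atTop (𝓝 (A0 u0)) :=
  ((isBoundedBilinearMap_apply (𝕜 := ℝ) (E := E) (F := G)).continuous.tendsto (A0, u0)).comp
    (hA.prodMk_nhds hu)

/-- The derivative of the projections is continuous in all variables. -/
private theorem Stable_tendsto_fderiv (hF : ContDiff ℝ ∞ F) {a : ℕ → Space} {x u : ℕ → Plane}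
    {x0 u0 : Plane} (ha : Tendsto a atTop (𝓝 0)) (hx : Tendsto x atTop (𝓝 x0))
    (hu : Tendsto u atTop (𝓝 u0)) :
    Tendsto (fun n => fderiv ℝ (proj F (a n)) (x n) (u n)) atTop
      (𝓝 (fderiv ℝ (shadow F) x0 u0)) := by
  have h1 : Tendsto (fun n => fderiv ℝ (shadow F) (x n) (u n)) atTop
      (𝓝 (fderiv ℝ (shadow F) x0 u0)) :=
    Stable_tendsto_apply
      ((((contDiff_shadow_of hF).continuous_fderiv (by simp)).tendsto x0).comp hx) hu
  have h2 : Tendsto (fun n => fderiv ℝ (fun y => F y 3) (x n) (u n)) atTop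
      (𝓝 (fderiv ℝ (fun y => F y 3) x0 u0)) :=
    Stable_tendsto_apply
      ((((contDiff_height_ts hF).continuous_fderiv (by simp)).tendsto x0).comp hx) hu
  have h3 := h1.add (h2.smul ha)
  rw [smul_zero, add_zero] at h3
  exact h3.congr fun n => (fderiv_proj hF (a n) (x n) (u n)).symm

private theorem Stable_tendsto_fderiv_fun {h : Plane → ℝ} (hh : ContDiff ℝ ∞ h)
    {x u : ℕ → Plane} {x0 u0 : Plane} (hx : Tendsto x atTop (𝓝 x0))
    (hu : Tendsto u atTop (𝓝 u0)) :
    Tendsto (fun n => fderiv ℝ h (x n) (u n)) atTop (𝓝 (fderiv ℝ h x0 u0)) :=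
  Stable_tendsto_apply (((hh.continuous_fderiv (by simp)).tendsto x0).comp hx) hu

/-- Immersions: compactness of the closed disc times the unit circle of vectors. -/
theorem exists_immersion_near (hF : IsSliceDisc F)
    (him : ∀ x ∈ closedBall (0 : Plane) 1, Function.Injective (fderiv ℝ (shadow F) x)) :
    ∃ ε > 0, ∀ a : Space, ‖a‖ < ε → ∀ x ∈ closedBall (0 : Plane) 1,
      Function.Injective (fderiv ℝ (proj F a) x) := by
  by_contra hcon
  push Not at hcon
  have h1 : ∀ n : ℕ, ∃ p : Space × Plane × Plane, ‖p.1‖ < 1 / ((n : ℝ) + 1) ∧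
      p.2 ∈ closedBall (0 : Plane) 1 ×ˢ sphere (0 : Plane) 1 ∧
      fderiv ℝ (proj F p.1) p.2.1 p.2.2 = 0 := by
    intro n
    obtain ⟨a, ha, x, hx, hinj⟩ := hcon (1 / ((n : ℝ) + 1)) (by positivity)
    rw [injective_iff_map_eq_zero] at hinj
    push Not at hinj
    obtain ⟨u, hu, hu0⟩ := hinj
    refine ⟨(a, x, (‖u‖)⁻¹ • u), ha, ⟨hx, ?_⟩, ?_⟩
    · rw [mem_sphere_zero_iff_norm]
      exact norm_smul_inv_norm (𝕜 := ℝ) hu0
    · show fderiv ℝ (proj F a) x ((‖u‖)⁻¹ • u) = 0
      rw [map_smul, hu, smul_zero]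
  choose p hp1 hp2 hp3 using h1
  obtain ⟨⟨x, u⟩, hq, φ, hφ, hlim⟩ := ((isCompact_closedBall (0 : Plane) 1).prod
    (isCompact_sphere (0 : Plane) 1)).tendsto_subseq hp2
  have ha : Tendsto (fun n => (p (φ n)).1) atTop (𝓝 0) := by
    have h2 : Tendsto (fun n => (p n).1) atTop (𝓝 0) :=
      squeeze_zero_norm (fun n => (hp1 n).le) tendsto_one_div_add_atTop_nhds_zero_nat
    exact h2.comp hφ.tendsto_atTop
  have hlx : Tendsto (fun n => (p (φ n)).2.1) atTop (𝓝 x) :=
    (continuous_fst.tendsto _).comp hlim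
  have hlu : Tendsto (fun n => (p (φ n)).2.2) atTop (𝓝 u) :=
    (continuous_snd.tendsto _).comp hlim
  have h2 := Stable_tendsto_fderiv hF.smooth ha hlx hlu
  have h3 : fderiv ℝ (shadow F) x u = 0 :=
    tendsto_nhds_unique h2 (tendsto_const_nhds.congr fun n => (hp3 (φ n)).symm)
  have h4 : u = 0 := (injective_iff_map_eq_zero _).1 (him x hq.1) u h3
  have h5 : ‖u‖ = 1 := mem_sphere_zero_iff_norm.1 hq.2
  rw [h4, norm_zero] at h5
  exact zero_ne_one h5

/-- If `h` has no critical point along the double curves of `shadow F`, the same is true for the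
projections `proj F a`, `a` small. Sequences as in `ts/RibbonOpen` `exists_noTriple_near` (limits of
pairs of different points with the same image are different because `shadow F` is an immersion;
normalise `(u, w)`; the limit of pairs `F x 3 > F y 3` is such a pair because `F` is injective). -/
theorem exists_mono_near (hF : IsSliceDisc F)
    (him : ∀ x ∈ closedBall (0 : Plane) 1, Function.Injective (fderiv ℝ (shadow F) x))
    {h : Plane → ℝ} (hh : ContDiff ℝ ∞ h)
    (hmon : ∀ x y, (x, y) ∈ DoubleSet F → ∀ u w, fderiv ℝ (shadow F) x u =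
      fderiv ℝ (shadow F) y w → fderiv ℝ h x u = 0 → u = 0 ∧ w = 0) :
    ∃ ε > 0, ∀ a : Space, ‖a‖ < ε → ∀ x ∈ closedBall (0 : Plane) 1,
      ∀ y ∈ closedBall (0 : Plane) 1, proj F a x = proj F a y → F y 3 < F x 3 →
      ∀ u w, fderiv ℝ (proj F a) x u = fderiv ℝ (proj F a) y w → fderiv ℝ h x u = 0 →
      u = 0 ∧ w = 0 := by
  by_contra hcon
  push Not at hcon
  have h1 : ∀ n : ℕ, ∃ p : Space × (Plane × Plane) × (Plane × Plane),
      ‖p.1‖ < 1 / ((n : ℝ) + 1) ∧
      p.2 ∈ (closedBall (0 : Plane) 1 ×ˢ closedBall (0 : Plane) 1) ×ˢ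
        sphere (0 : Plane × Plane) 1 ∧
      proj F p.1 p.2.1.1 = proj F p.1 p.2.1.2 ∧ F p.2.1.2 3 < F p.2.1.1 3 ∧
      fderiv ℝ (proj F p.1) p.2.1.1 p.2.2.1 = fderiv ℝ (proj F p.1) p.2.1.2 p.2.2.2 ∧
      fderiv ℝ h p.2.1.1 p.2.2.1 = 0 := by
    intro n
    obtain ⟨a, ha, x, hx, y, hy, he, hlt, u, w, huw, hhu, hne⟩ :=
      hcon (1 / ((n : ℝ) + 1)) (by positivity)
    have hne' : ((u, w) : Plane × Plane) ≠ 0 := by
      intro h0
      have h01 : u = 0 := congrArg Prod.fst h0
      have h02 : w = 0 := congrArg Prod.snd h0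
      exact hne h01 h02
    refine ⟨(a, (x, y), (‖((u, w) : Plane × Plane)‖)⁻¹ • (u, w)), ha, ⟨⟨hx, hy⟩, ?_⟩, he, hlt,
      ?_, ?_⟩
    · rw [mem_sphere_zero_iff_norm]
      exact norm_smul_inv_norm (𝕜 := ℝ) hne'
    · show fderiv ℝ (proj F a) x ((‖((u, w) : Plane × Plane)‖)⁻¹ • u) =
        fderiv ℝ (proj F a) y ((‖((u, w) : Plane × Plane)‖)⁻¹ • w)
      rw [map_smul, map_smul, huw]
    · show fderiv ℝ h x ((‖((u, w) : Plane × Plane)‖)⁻¹ • u) = 0
      rw [map_smul, hhu, smul_zero]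
  choose p hp1 hp2 hp3 hp4 hp5 hp6 using h1
  have hD : IsCompact (closedBall (0 : Plane) 1) := isCompact_closedBall 0 1
  obtain ⟨⟨⟨x, y⟩, ⟨u, w⟩⟩, hq, φ, hφ, hlim⟩ := ((hD.prod hD).prod
    (isCompact_sphere (0 : Plane × Plane) 1)).tendsto_subseq hp2
  have ha : Tendsto (fun n => (p (φ n)).1) atTop (𝓝 0) := by
    have h2 : Tendsto (fun n => (p n).1) atTop (𝓝 0) :=
      squeeze_zero_norm (fun n => (hp1 n).le) tendsto_one_div_add_atTop_nhds_zero_nat
    exact h2.comp hφ.tendsto_atTop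
  have hlx : Tendsto (fun n => (p (φ n)).2.1.1) atTop (𝓝 x) :=
    ((continuous_fst.comp continuous_fst).tendsto _).comp hlim
  have hly : Tendsto (fun n => (p (φ n)).2.1.2) atTop (𝓝 y) :=
    ((continuous_snd.comp continuous_fst).tendsto _).comp hlim
  have hlu : Tendsto (fun n => (p (φ n)).2.2.1) atTop (𝓝 u) :=
    ((continuous_fst.comp continuous_snd).tendsto _).comp hlim
  have hlw : Tendsto (fun n => (p (φ n)).2.2.2) atTop (𝓝 w) :=
    ((continuous_snd.comp continuous_snd).tendsto _).comp hlim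
  have hcont : Continuous fun q : Plane × Space => proj F q.2 q.1 :=
    ((contDiff_shadow_of hF.smooth).continuous.comp continuous_fst).add
      (((contDiff_height_ts hF.smooth).continuous.comp continuous_fst).smul continuous_snd)
  have hlim' : ∀ {z : ℕ → Plane} {v : Plane}, Tendsto z atTop (𝓝 v) →
      Tendsto (fun n => proj F (p (φ n)).1 (z n)) atTop (𝓝 (shadow F v)) := by
    intro z v hz
    have h2 := (hcont.tendsto (v, 0)).comp (hz.prodMk_nhds ha)
    have h3 : proj F 0 v = shadow F v := by simp [proj]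
    simp only [h3] at h2
    exact h2
  obtain ⟨⟨hx, hy⟩, hn⟩ := hq
  have e1 : shadow F x = shadow F y :=
    tendsto_nhds_unique (hlim' hlx) ((hlim' hly).congr fun n => (hp3 (φ n)).symm)
  have hxy : x ≠ y := by
    intro hvv
    subst hvv
    obtain ⟨N, hN, hNi⟩ := Stable_exists_injNear hF.smooth (him x hx)
    have h2 : ∀ᶠ n in atTop, ((p (φ n)).2.1.1, (p (φ n)).1) ∈ N := (hlx.prodMk_nhds ha) hN
    have h3 : ∀ᶠ n in atTop, ((p (φ n)).2.1.2, (p (φ n)).1) ∈ N := (hly.prodMk_nhds ha) hN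
    obtain ⟨n, h4, h5⟩ := (h2.and h3).exists
    have h6 := hNi _ _ _ h4 h5 (hp3 (φ n))
    have h7 := hp4 (φ n)
    rw [h6] at h7
    exact lt_irrefl _ h7
  have hle : F y 3 ≤ F x 3 := by
    have hc := (contDiff_height_ts hF.smooth).continuous
    exact le_of_tendsto_of_tendsto' ((hc.tendsto y).comp hly) ((hc.tendsto x).comp hlx)
      fun n => (hp4 (φ n)).le
  have hlt : F y 3 < F x 3 := by
    rcases hle.lt_or_eq with h2 | h2
    · exact h2
    · exfalso
      refine hxy (hF.inj hx hy ?_)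
      ext i
      fin_cases i
      · exact congrArg (fun v : Space => v 0) e1
      · exact congrArg (fun v : Space => v 1) e1
      · exact congrArg (fun v : Space => v 2) e1
      · exact h2.symm
  have e2 : fderiv ℝ (shadow F) x u = fderiv ℝ (shadow F) y w :=
    tendsto_nhds_unique (Stable_tendsto_fderiv hF.smooth ha hlx hlu)
      ((Stable_tendsto_fderiv hF.smooth ha hly hlw).congr fun n => (hp5 (φ n)).symm)
  have e3 : fderiv ℝ h x u = 0 :=
    tendsto_nhds_unique (Stable_tendsto_fderiv_fun hh hlx hlu)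
      (tendsto_const_nhds.congr fun n => (hp6 (φ n)).symm)
  obtain ⟨h4, h5⟩ := hmon x y ⟨hx, hy, e1, hlt⟩ u w e2 e3
  have h6 : ‖((u, w) : Plane × Plane)‖ = 1 := mem_sphere_zero_iff_norm.1 hn
  rw [h4, h5] at h6
  have h7 : ((0, 0) : Plane × Plane) = 0 := rfl
  rw [h7, norm_zero] at h6
  exact zero_ne_one h6

end Pool.Agent.Lib_MP_752436_cv
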