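import Pool.Agent.Lib_MP_752436_cv.TMain
import Pool.Agent.Lib_MP_752436_cv.MonoFn
import Pool.Agent.Lib_MP_752436_cv.Stable
import Pool.Agent.Lib_MP_752436_cv.RibbonGP
import Pool.Agent.Lib_MP_752436_cu.Main2
import Pool.Agent.Lib_MP_752436_ch.RibbonConn

/-!
A knot is ribbon if and only if it bounds a slice disc whose projections in a non-null set of
directions do not separate space.
-/

open MeasureTheory Metric Set Filter
open scoped ContDiff Topology

namespace Pool.Agent.Lib_MP_752436_cv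

open Pool.Agent.Lib_MP_752436_gt Pool.Agent.Lib_MP_752436_tp Pool.Agent.Lib_MP_752436_rb
  Pool.Agent.Lib_MP_752436_ts Pool.Agent.Lib_MP_752436_nb Pool.Agent.Lib_MP_752436_cu
  Pool.Agent.Lib_MP_752436_ch

/-- The kernel of `(u, w) ↦ A u - B w` is a line if the sheets are transverse. -/
theorem final_line {A B : Plane →L[ℝ] Space} (h : ∀ v : Space, ∃ u w, A u + B w = v)
    {a b : Plane} (ha : a ≠ 0) (hab : A a = B b) {u w : Plane} (huw : A u = B w) :
    ∃ c : ℝ, u = c • a ∧ w = c • b := by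
  set T : Plane × Plane →ₗ[ℝ] Space :=
    { toFun := fun p => A p.1 - B p.2
      map_add' := fun p q => by
        simp only [Prod.fst_add, Prod.snd_add, map_add]
        abel
      map_smul' := fun r p => by
        simp only [Prod.smul_fst, Prod.smul_snd, map_smul, RingHom.id_apply, smul_sub] } with hT
  have hsurj : LinearMap.range T = ⊤ := by
    rw [LinearMap.range_eq_top]
    intro v
    obtain ⟨u, w, h1⟩ := h v
    refine ⟨(u, -w), ?_⟩
    show A u - B (-w) = v
    rw [map_neg, sub_neg_eq_add, h1]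
  have hrank : Module.finrank ℝ (LinearMap.ker T) = 1 := by
    have h1 := T.finrank_range_add_finrank_ker
    rw [hsurj, finrank_top] at h1
    have h2 : Module.finrank ℝ (Plane × Plane) = 4 := by simp
    have h3 : Module.finrank ℝ Space = 3 := by simp
    omega
  have hp : ((a, b) : Plane × Plane) ∈ LinearMap.ker T := by
    rw [LinearMap.mem_ker]
    show A a - B b = 0
    rw [hab, sub_self]
  have hq : ((u, w) : Plane × Plane) ∈ LinearMap.ker T := by
    rw [LinearMap.mem_ker]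
    show A u - B w = 0
    rw [huw, sub_self]
  have hne : (⟨(a, b), hp⟩ : LinearMap.ker T) ≠ 0 := by
    intro h0
    apply ha
    have := congrArg Subtype.val h0
    exact congrArg Prod.fst this
  obtain ⟨c, hc⟩ := (finrank_eq_one_iff_of_nonzero' _ hne).1 hrank ⟨(u, w), hq⟩
  have hc' := congrArg Subtype.val hc
  exact ⟨c, (congrArg Prod.fst hc').symm, (congrArg Prod.snd hc').symm⟩

/-- The velocities of the two preimage arcs of a ribbon singularity have the same image. -/
theorem final_velocity {f : Plane → Space} (hf : ContDiff ℝ ∞ f) {α β : ℝ → Plane}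
    (hα : ContDiff ℝ ∞ α) (hβ : ContDiff ℝ ∞ β) (h : ∀ s ∈ Icc (0 : ℝ) 1, f (α s) = f (β s))
    {s : ℝ} (hs : s ∈ Icc (0 : ℝ) 1) :
    fderiv ℝ f (α s) (deriv α s) = fderiv ℝ f (β s) (deriv β s) := by
  have hd : ∀ {γ : ℝ → Plane}, ContDiff ℝ ∞ γ → ∀ t, deriv (fun r => f (γ r)) t =
      fderiv ℝ f (γ t) (deriv γ t) := by
    intro γ hγ t
    exact (((hf.differentiable (by simp)) (γ t)).hasFDerivAt.comp_hasDerivAt t
      ((hγ.differentiable (by simp)) t).hasDerivAt).deriv
  rw [← hd hα, ← hd hβ]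
  have hca : Continuous (deriv fun r => f (α r)) :=
    (hf.comp hα).continuous_deriv (by simp)
  have hcb : Continuous (deriv fun r => f (β r)) :=
    (hf.comp hβ).continuous_deriv (by simp)
  have hcl : IsClosed {t | deriv (fun r => f (α r)) t = deriv (fun r => f (β r)) t} :=
    isClosed_eq hca hcb
  have hsub : Ioo (0 : ℝ) 1 ⊆ {t | deriv (fun r => f (α r)) t = deriv (fun r => f (β r)) t} := by
    intro t ht
    have h1 : (fun r => f (α r)) =ᶠ[𝓝 t] fun r => f (β r) := by
      filter_upwards [Ioo_mem_nhds ht.1 ht.2] with r hr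
      exact h r ⟨hr.1.le, hr.2.le⟩
    exact h1.deriv_eq
  have h2 := closure_minimal hsub hcl
  rw [closure_Ioo (by norm_num)] at h2
  exact h2 hs

/-- The data used for the perturbation. -/
theorem exists_mono_disc {K : Set Space} (hK : IsRibbonKnot K) :
    ∃ F, IsSliceDisc F ∧ boundaryKnot F = K ∧
      (∀ x ∈ closedBall (0 : Plane) 1, Function.Injective (fderiv ℝ (shadow F) x)) ∧
      (∀ x ∈ closedBall (0 : Plane) 1, ∀ y ∈ closedBall (0 : Plane) 1,
        ∀ z ∈ closedBall (0 : Plane) 1, x ≠ y → x ≠ z → y ≠ z →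
        ¬ (shadow F x = shadow F y ∧ shadow F x = shadow F z)) ∧
      ∃ h : Plane → ℝ, ContDiff ℝ ∞ h ∧
        ∀ x y, (x, y) ∈ DoubleSet F → ∀ u w, fderiv ℝ (shadow F) x u =
          fderiv ℝ (shadow F) y w → fderiv ℝ h x u = 0 → u = 0 ∧ w = 0 := by
  obtain ⟨f, hf, hfK, htr⟩ := exists_transverse hK
  obtain ⟨n, α, β, hpair, hdisj, hdouble⟩ := hf.singularities
  have hcα : ∀ i, Continuous (α i) := fun i => (hpair i).arcα.smooth.continuous
  have hcβ : ∀ i, Continuous (β i) := fun i => (hpair i).arcβ.smooth.continuous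
  have hβD : ∀ i, ∀ s ∈ Icc (0 : ℝ) 1, β i s ∈ closedBall (0 : Plane) 1 := by
    intro i s hs
    rcases eq_or_lt_of_le hs.1 with h0 | h0
    · rw [← h0]
      exact sphere_subset_closedBall (hpair i).left
    rcases eq_or_lt_of_le hs.2 with h1 | h1
    · rw [h1]
      exact sphere_subset_closedBall (hpair i).right
    · exact ball_subset_closedBall ((hpair i).proper s ⟨h0, h1⟩)
  have hαD : ∀ i, ∀ s ∈ Icc (0 : ℝ) 1, α i s ∈ closedBall (0 : Plane) 1 := fun i s hs =>
    ball_subset_closedBall ((hpair i).inside s hs)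
  have hsame : ∀ i j, ∀ s ∈ Icc (0 : ℝ) 1, ∀ t ∈ Icc (0 : ℝ) 1, f (α i s) = f (α j t) →
      i = j := by
    intro i j s hs t ht h
    by_contra hne
    exact Set.disjoint_left.1 (hdisj i j hne) ⟨s, hs, rfl⟩ ⟨t, ht, h.symm⟩
  have hno : ∀ i j, ∀ s ∈ Icc (0 : ℝ) 1, ∀ t ∈ Icc (0 : ℝ) 1, β i s ≠ α j t := by
    intro i j s hs t ht h
    have h1 : f (α i s) = f (α j t) := by
      rw [(hpair i).same s hs, h]
    have h2 := hsame i j s hs t ht h1
    subst h2
    exact Set.disjoint_left.1 (hpair i).disjoint ⟨t, ht, rfl⟩ ⟨s, hs, h⟩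
  have hP : PairDisc f (⋃ i, α i '' Icc (0 : ℝ) 1) (⋃ i, β i '' Icc (0 : ℝ) 1) := by
    refine ⟨hf.smooth, hf.immersion, isCompact_iUnion fun i => isCompact_Icc.image (hcα i), ?_,
      (isCompact_iUnion fun i => isCompact_Icc.image (hcβ i)).isClosed, ?_, ?_⟩
    · refine iUnion_subset fun i => ?_
      rintro x ⟨s, hs, rfl⟩
      exact (hpair i).inside s hs
    · rw [Set.disjoint_left]
      intro x hx hx'
      obtain ⟨i, s, hs, rfl⟩ := mem_iUnion.1 hx
      obtain ⟨j, t, ht, h⟩ := mem_iUnion.1 hx'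
      exact hno j i t ht s hs h
    · intro x hx y hy hxy hfxy
      obtain ⟨i, s, hs, h⟩ := hdouble x hx y hy hxy hfxy
      rcases h with ⟨h1, h2⟩ | ⟨h1, h2⟩
      · exact Or.inl ⟨mem_iUnion.2 ⟨i, s, hs, h1.symm⟩, mem_iUnion.2 ⟨i, s, hs, h2.symm⟩⟩
      · exact Or.inr ⟨mem_iUnion.2 ⟨i, s, hs, h1.symm⟩, mem_iUnion.2 ⟨i, s, hs, h2.symm⟩⟩
  obtain ⟨t, ht, hlt⟩ := hP.exists_height
  have hF := isSliceDisc_of_sdisc ht
  have hsh : shadow (lift4 f t) = f := shadow_lift4 f t
  have hval : ∀ x, lift4 f t x 3 = t x := fun x => by simp [lift4]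
  obtain ⟨h, hh, hmono⟩ := exists_mono (fun i => (hpair i).arcα) (fun i => (hpair i).inside)
    (fun i j hij => by
      rw [Set.disjoint_left]
      rintro x ⟨s, hs, rfl⟩ ⟨r, hr, h1⟩
      exact hij (hsame i j s hs r hr (by rw [h1])))
  refine ⟨lift4 f t, hF, by rw [boundaryKnot, hsh, hfK], ?_, ?_, h, hh, ?_⟩
  · rw [hsh]
    exact hf.immersion
  · intro x hx y hy z hz hxy hxz hyz he
    rw [hsh] at he
    exact hyz (Pool.Agent.Lib_MP_752436_nb.double_of_ribbonImmersion hf hx hy hz hxy hxz he.1 he.2)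
  · rintro x y ⟨hx, hy, hxy, hlt'⟩ u w huw hu
    simp only [hsh, hval] at hx hy hxy hlt' huw
    have hne : x ≠ y := fun h0 => by
      rw [h0] at hlt'
      exact lt_irrefl _ hlt'
    obtain ⟨i, s, hs, h1⟩ := hdouble x hx y hy hne hxy
    rcases h1 with ⟨rfl, rfl⟩ | ⟨rfl, rfl⟩
    · obtain ⟨c, rfl, rfl⟩ := final_line (htr _ hx _ hy hne hxy) ((hpair i).arcα.regular s hs)
        (final_velocity hf.smooth (hpair i).arcα.smooth (hpair i).arcβ.smooth (hpair i).same hs) huw
      rw [map_smul, smul_eq_mul] at hu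
      have hc : c = 0 := (mul_eq_zero.1 hu).resolve_right (hmono i s hs)
      rw [hc, zero_smul, zero_smul]
      exact ⟨rfl, rfl⟩
    · exact absurd hlt' (not_lt.2 (hlt _ (mem_iUnion.2 ⟨i, s, hs, rfl⟩) _
        (mem_iUnion.2 ⟨i, s, hs, rfl⟩)).le)

/-- A ribbon knot bounds a slice disc whose projections in almost all directions near the vertical
direction are ribbon immersions in general position. -/
theorem exists_stable_ribbon {K : Set Space} (hK : IsRibbonKnot K) :
    ∃ F, IsSliceDisc F ∧ boundaryKnot F = K ∧ ∃ ε > 0, ∀ᵐ a : Space, ‖a‖ < ε →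
      GeneralPosition (tilt F a) ∧ RibbonImmersion (shadow (tilt F a)) := by
  obtain ⟨F, hF, hFK, him, hntr, h, hh, hmon⟩ := exists_mono_disc hK
  obtain ⟨ε₁, hε₁, h1⟩ := exists_immersion_near hF him
  obtain ⟨ε₂, hε₂, h2⟩ := exists_mono_near hF him hh hmon
  obtain ⟨ε₃, hε₃, h3⟩ := exists_noTriple_near hF him hntr
  refine ⟨F, hF, hFK, min ε₁ (min ε₂ ε₃), by positivity, ?_⟩
  filter_upwards [ae_umb hF] with a ha hε
  have ha1 : ‖a‖ < ε₁ := hε.trans_le (min_le_left _ _)
  have ha2 : ‖a‖ < ε₂ := hε.trans_le ((min_le_right _ _).trans (min_le_left _ _))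
  have ha3 : ‖a‖ < ε₃ := hε.trans_le ((min_le_right _ _).trans (min_le_right _ _))
  rw [tilt_eq]
  have hsh : shadow (fun x => shearMap (horizVec a) (F x)) = proj F a := shadow_shear F a
  have hS : IsSliceDisc (fun x => shearMap (horizVec a) (F x)) :=
    isSliceDisc_shear hF (horizVec_three a)
  have hpair : ∀ x y, (x, y) ∈ DoubleSet (fun x => shearMap (horizVec a) (F x)) →
      x ∈ closedBall (0 : Plane) 1 ∧ y ∈ closedBall (0 : Plane) 1 ∧ proj F a x = proj F a y ∧
        F y 3 < F x 3 ∧ x ≠ y := by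
    intro x y hxy
    have h5 : F y 3 < F x 3 := by
      have h4 := hxy.2.2.2
      simp only [shear_three] at h4
      exact h4
    refine ⟨hxy.1, hxy.2.1, ?_, h5, ?_⟩
    · have h4 := hxy.2.2.1
      rw [hsh] at h4
      exact h4
    · rintro rfl
      exact lt_irrefl _ h5
  have hno : ∀ x y z, ¬ Triple (fun x => shearMap (horizVec a) (F x)) x y z := by
    rintro x y z ⟨hxy, hyz⟩
    obtain ⟨hx, hy, he, hlt, hne⟩ := hpair x y hxy
    obtain ⟨-, hz, he', hlt', hne'⟩ := hpair y z hyz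
    refine h3 a ha3 x hx y hy z hz hne ?_ hne' ⟨he, he.trans he'⟩
    rintro rfl
    exact lt_asymm hlt hlt'
  have hgp : GeneralPosition (fun x => shearMap (horizVec a) (F x)) := by
    refine ⟨?_, ?_, ha.boundary, fun x y z hxyz => absurd hxyz (hno x y z),
      fun x y z w hxyz => absurd hxyz (hno x y z)⟩
    · rw [hsh]
      exact h1 a ha1
    · intro x y hxy v
      obtain ⟨hx, hy, he, -, hne⟩ := hpair x y hxy
      exact ha.gen.double x hx y hy hne (by rw [hsh]; exact he) v
  refine ⟨hgp, ribbonImmersion_of_noTriple hS hgp hno hh ?_⟩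
  intro x y hxy u w huw hu
  obtain ⟨hx, hy, he, hlt, -⟩ := hpair x y hxy
  rw [hsh] at huw
  exact h2 a ha2 x hx y hy he hlt u w huw hu

/-- If almost every small `a` gives a connected complement, the set of these `a` is not null. -/
theorem final_nonnull {s : Set Space} {ε : ℝ} (hε : 0 < ε) (h : ∀ᵐ a : Space, ‖a‖ < ε → a ∈ s) :
    volume s ≠ 0 := by
  intro h0
  have h1 : ∀ᵐ a : Space, a ∉ ball (0 : Space) ε := by
    have h2 : ∀ᵐ a : Space, a ∉ s := measure_eq_zero_iff_ae_notMem.1 h0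
    filter_upwards [h, h2] with a ha ha2 hb
    exact ha2 (ha (mem_ball_zero_iff.1 hb))
  exact (measure_ball_pos volume (0 : Space) hε).ne' (measure_eq_zero_iff_ae_notMem.2 h1)

/-- A knot is ribbon if it bounds a slice disc whose projections in a non-null set of directions do
not separate space. -/
theorem ribbon_of_nonnull {F : Plane → EuclideanSpace ℝ (Fin 4)} (hF : IsSliceDisc F)
    (h : volume {a : Space | IsConnected (shadow (tilt F a) '' closedBall (0 : Plane) 1)ᶜ} ≠ 0) :
    IsRibbonKnot (boundaryKnot F) := by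
  by_contra hR
  apply h
  rw [measure_eq_zero_iff_ae_notMem]
  filter_upwards [ae_births_add_free_le hF] with a ha hc
  obtain ⟨G, hG, hGk, hGn⟩ := ha
  have hS : IsSliceDisc (tilt F a) := by
    rw [tilt_eq]
    exact isSliceDisc_shear hF (horizVec_three a)
  rw [chambers_eq_empty hS hc, encard_empty] at hGn
  have hb : births G = ∅ := by
    rw [← Set.encard_eq_zero]
    exact le_antisymm (le_self_add.trans hGn) bot_le
  exact hR (hGk ▸ Pool.Agent.Lib_MP_752436_rc.isRibbonKnot_of_noBirths hG hb)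

/-- Ribbon knots and projections which do not separate space. -/
theorem ribbon_tfae (K : Set Space) :
    List.TFAE [IsRibbonKnot K,
      ∃ F, IsSliceDisc F ∧ boundaryKnot F = K ∧ Tame F ∧
        IsConnected (shadow F '' closedBall (0 : Plane) 1)ᶜ,
      ∃ F, IsSliceDisc F ∧ boundaryKnot F = K ∧
        volume {a : Space | IsConnected (shadow (tilt F a) '' closedBall (0 : Plane) 1)ᶜ} ≠ 0,
      ∃ F, IsSliceDisc F ∧ boundaryKnot F = K ∧ ∃ ε > 0, ∀ᵐ a : Space, ‖a‖ < ε →
        IsConnected (shadow (tilt F a) '' closedBall (0 : Plane) 1)ᶜ] := by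
  tfae_have 1 → 4 := by
    intro hK
    obtain ⟨F, hF, hFK, ε, hε, h⟩ := exists_stable_ribbon hK
    refine ⟨F, hF, hFK, ε, hε, ?_⟩
    filter_upwards [h] with a ha hb
    exact isConnected_compl_ribbon (ha hb).2
  tfae_have 4 → 3 := by
    rintro ⟨F, hF, hFK, ε, hε, h⟩
    exact ⟨F, hF, hFK, final_nonnull hε h⟩
  tfae_have 3 → 1 := by
    rintro ⟨F, hF, rfl, h⟩
    exact ribbon_of_nonnull hF h
  tfae_have 1 ↔ 2 := by
    rw [ribbon_iff_connected]
    constructor
    · rintro ⟨F, h1, h2, h3, h4⟩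
      exact ⟨F, h1, h3, h2, h4⟩
    · rintro ⟨F, h1, h3, h2, h4⟩
      exact ⟨F, h1, h2, h3, h4⟩
  tfae_finish

end Pool.Agent.Lib_MP_752436_cv
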