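import Pool.Agent.Lib_MP_752436_tp.Exists

/-!
Piece C2: the double curves of a disc in general position are smooth.
-/

open MeasureTheory Metric Set Filter
open scoped ContDiff Topology

namespace Pool.Agent.Lib_MP_752436_cv

open Pool.Agent.Lib_MP_752436_gt Pool.Agent.Lib_MP_752436_tp

/-- The cut off field is smooth. -/
theorem sc_exists_cutFlow {f : Plane → Space} (hf : ContDiff ℝ ∞ f) :
    ∃ v Φ, CutFlow f v Φ ∧ ContDiff ℝ ∞ v := by
  let χ : ContDiffBump (0 : Plane × Plane) := ⟨2, 3, by norm_num, by norm_num⟩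
  have hχ : ContDiff ℝ ∞ (χ : Plane × Plane → ℝ) := χ.contDiff
  have h1 : ContDiff ℝ ∞ fun p : Plane × Plane => nvec f p.1 :=
    (contDiff_nvec' hf).comp contDiff_fst
  have h2 : ContDiff ℝ ∞ fun p : Plane × Plane => nvec f p.2 :=
    (contDiff_nvec' hf).comp contDiff_snd
  have hN := fl_contDiff_cross h1 h2
  have h3 : ContDiff ℝ ∞ (field f) :=
    ((h2.norm_sq ℝ).smul (fl_contDiff_pull hf contDiff_fst hN)).prodMk
      ((h1.norm_sq ℝ).smul (fl_contDiff_pull hf contDiff_snd hN))
  have hvs : ContDiff ℝ ∞ (fun p => χ p • field f p) := hχ.smul h3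
  have hv : ContDiff ℝ 1 (fun p => χ p • field f p) := hvs.of_le (by exact_mod_cast le_top)
  have hc : HasCompactSupport (fun p => χ p • field f p) := χ.hasCompactSupport.smul_right
  obtain ⟨Φ, hΦ⟩ := exists_isFlow hv hc
  refine ⟨fun p => χ p • field f p, Φ, ⟨hv, ?_, ?_, hΦ⟩, hvs⟩
  · intro p
    show fderiv ℝ f p.1 (χ p • (field f p).1) = fderiv ℝ f p.2 (χ p • (field f p).2)
    rw [map_smul, map_smul, field_parallel]
  · intro p h1 h2
    have h3 : χ p = 1 := by
      apply χ.one_of_mem_closedBall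
      rw [mem_closedBall_zero_iff, Prod.norm_def]
      rw [mem_ball_zero_iff] at h1 h2
      exact max_le h1.le h2.le
    show χ p • field f p = field f p
    rw [h3, one_smul]

/-- Orbits of a smooth field are smooth. -/
theorem sc_orbit {f : Plane → Space} {v : Plane × Plane → Plane × Plane}
    {Φ : ℝ → Plane × Plane → Plane × Plane} (h : CutFlow f v Φ) (hV : ContDiff ℝ ∞ v)
    (x : Plane × Plane) : ContDiff ℝ ∞ fun s => Φ s x := by
  have hd : ∀ s, HasDerivAt (fun s => Φ s x) (v (Φ s x)) s := h.flow.deriv x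
  have hderiv : deriv (fun s => Φ s x) = fun s => v (Φ s x) := funext fun s => (hd s).deriv
  have key : ∀ n : ℕ, ContDiff ℝ n fun s => Φ s x := by
    intro n
    induction n with
    | zero =>
      exact contDiff_zero.2 (continuous_iff_continuousAt.2 fun s => (hd s).continuousAt)
    | succ n ih =>
      rw [show ((n + 1 : ℕ) : WithTop ℕ∞) = (n : WithTop ℕ∞) + 1 by norm_cast,
        contDiff_succ_iff_deriv]
      refine ⟨fun s => (hd s).differentiableAt, fun h => by simp at h, ?_⟩
      rw [hderiv]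
      exact (hV.of_le (by exact_mod_cast le_top)).comp ih
  exact contDiff_infty.2 key

/-- Copy of `tp/Exists` `exists_curves`, with the vector field `χ p • field f p` of
`tp/CutFlow` `exists_cutFlow`, which is smooth (the proof of `tp/Field` `contDiff_field` gives
`ContDiff ℝ ∞ (field f)`); orbits of smooth fields are smooth (`nb/Flow` `flow_orbit_contDiff`:
copy the argument). -/
theorem exists_smooth_curves {F : Plane → EuclideanSpace ℝ (Fin 4)} (hF : IsSliceDisc F)
    (hg : GeneralPosition F) :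
    ∃ (ι : Type) (_ : Finite ι) (G : Curves ι), IsCurves G (DoubleSet F) ∧
      ∀ i, ContDiff ℝ ∞ (G.c i) := by
  obtain ⟨v, Φ, h, hvs⟩ := sc_exists_cutFlow (od_contDiff_shadow hF)
  obtain ⟨ι, hι, c, len, closed, hlen, hcov, hcl, harc, hdisj⟩ :=
    exists_orbit_family (oneDim_doubleSet hF hg h)
  have hend : ∀ i, ¬ closed i → Φ 0 (c i) ∈ DoubleSet F ∩ {p | p.2 ∈ sphere (0 : Plane) 1} ∧
      Φ (len i) (c i) ∈ DoubleSet F ∩ {p | p.2 ∈ sphere (0 : Plane) 1} := fun i hi => by
    rw [h.flow.zero]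
    exact ⟨(harc i hi).1, (harc i hi).2.1⟩
  have hmem : ∀ i t, (closed i ∨ t ∈ Icc 0 (len i)) → Φ t (c i) ∈ DoubleSet F := by
    intro i t ht
    by_cases hi : closed i
    · exact ((hcl i hi).2.2 t).1
    · have ht' : t ∈ Icc 0 (len i) := ht.resolve_left hi
      rcases ht'.1.eq_or_lt with h0 | h0
      · rw [← h0]; exact (hend i hi).1.1
      · rcases ht'.2.eq_or_lt with h1 | h1
        · rw [h1]; exact (hend i hi).2.1
        · exact ((harc i hi).2.2.2 t ⟨h0, h1⟩).1
  have hball : ∀ p : Plane × Plane,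
      p ∈ DoubleSet F \ (DoubleSet F ∩ {p | p.2 ∈ sphere (0 : Plane) 1}) →
      p.2 ∈ ball (0 : Plane) 1 := by
    intro p hp
    rcases (mem_closedBall.mp hp.1.2.1).lt_or_eq with h1 | h1
    · exact mem_ball.mpr h1
    · exact absurd ⟨hp.1, mem_sphere.mpr h1⟩ hp.2
  have hv : ∀ i t, (closed i ∨ t ∈ Icc 0 (len i)) →
      (v (Φ t (c i))).1 ≠ 0 ∧ (v (Φ t (c i))).2 ≠ 0 := by
    intro i t ht
    rw [od_field_eq h (hmem i t ht)]
    exact od_kernel hg (hmem i t ht)
  have hsm : ∀ i, ContDiff ℝ ∞ (fun t => Φ t (c i)) := fun i => sc_orbit h hvs (c i)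
  refine ⟨ι, hι, ⟨fun i t => Φ t (c i), len, closed⟩, ?_, hsm⟩
  exact {
    pos := hlen
    smooth := fun i => (hsm i).of_le (by exact_mod_cast le_top)
    immFst := fun i t ht => by
      have hd : HasDerivAt (fun t => (Φ t (c i)).1) (v (Φ t (c i))).1 t :=
        (h.flow.deriv (c i) t).fst
      change deriv (fun t => (Φ t (c i)).1) t ≠ 0
      rw [hd.deriv]
      exact (hv i t ht).1
    immSnd := fun i t ht => by
      have hd : HasDerivAt (fun t => (Φ t (c i)).2) (v (Φ t (c i))).2 t :=
        (h.flow.deriv (c i) t).snd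
      change deriv (fun t => (Φ t (c i)).2) t ≠ 0
      rw [hd.deriv]
      exact (hv i t ht).2
    cover := hcov
    disj := fun i j hij => hdisj i j hij
    periodic := fun i hi t => by
      change Φ (t + len i) (c i) = Φ t (c i)
      rw [h.flow.add, (hcl i hi).1]
    injClosed := fun i hi => (hcl i hi).2.1
    injArc := fun i hi => (harc i hi).2.2.1
    fstMem := fun i t ht => od_fst_mem_ball hF (hmem i t ht)
    sndMem := fun i t ht => (hmem i t ht).2.1
    sndClosed := fun i hi t => hball _ ((hcl i hi).2.2 t)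
    sndArc := fun i hi t ht => hball _ ((harc i hi).2.2.2 t ht)
    ends := fun i hi => ⟨(hend i hi).1.2, (hend i hi).2.2⟩ }

end Pool.Agent.Lib_MP_752436_cv
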