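import Pool.Agent.Lib_MP_752436_cv.TDefs
import Pool.Agent.Lib_MP_752436_rc.Chain

/-!
Piece T1: regular levels, transverse version of `Lib_MP_752436_rc/Chain.lean`.
-/

open MeasureTheory Metric Set
open scoped ContDiff Topology

namespace Pool.Agent.Lib_MP_752436_cv

open Pool.Agent.Lib_MP_752436_gt Pool.Agent.Lib_MP_752436_rb Pool.Agent.Lib_MP_752436_rc

/-- The step through regular levels. -/
theorem goodT_of_regular {f : E2 → E3} {e : E2 → ℝ} (hf : ContDiff ℝ ∞ f) (he : ContDiff ℝ ∞ e)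
    {a b a' : ℝ} (hab : a ≤ b) (ha : a' < a) (hK : IsCompact {x | a' ≤ e x})
    (hreg : ∀ x, a ≤ e x → e x ≤ b → fderiv ℝ e x ≠ 0)
    (hinj : ∀ x y, a ≤ e x → e x ≤ b → e x = e y → f x = f y → x = y)
    (himm : ∀ x, a ≤ e x → e x ≤ b → ∀ u, fderiv ℝ f x u = 0 → fderiv ℝ e x u = 0 → u = 0)
    (h : GoodT f e b) : GoodT f e a := by
  have hK' : IsCompact {x | a ≤ e x} := by
    refine hK.of_isClosed_subset (isClosed_le continuous_const he.continuous) fun x hx => ?_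
    exact ha.le.trans hx
  obtain ⟨V, hV, hV1⟩ := exists_gradient he
  obtain ⟨ψ, ψ', Φ, hψ, hψ', hl, hr, hi1, hi2, hΦ, hΦ1⟩ := iso_level hf he hV hab hK'
    (fun z h1 h2 => hV1 z (hreg z h1 h2))
    (fun z w h1 h2 h3 h4 => (hinj z w h1 h2 h3.symm h4.symm).symm)
    himm
  obtain ⟨Φ', hΦ'⟩ := exists_diffeoPair_of_isotopy hΦ (s := 1) ⟨zero_le_one, le_rfl⟩
  obtain ⟨ι, hι, α, β, g, hg, hgt, hgf⟩ := h
  have hψψ : DiffeoPair ψ ψ' := ⟨hψ, hψ', hl, hr⟩
  have hle : ∀ x, a ≤ e (ψ x) ↔ b ≤ e x := by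
    intro x
    have : ψ x ∈ {z | a ≤ e z} ↔ x ∈ {z | b ≤ e z} := by
      rw [← hi1]
      constructor
      · rintro ⟨y, hy, hxy⟩
        have : y = x := by rw [← hl y, hxy, hl]
        rw [← this]
        exact hy
      · intro hx
        exact ⟨x, hx, rfl⟩
    exact this
  have heq : ∀ x, e (ψ x) = a ↔ e x = b := by
    intro x
    have : ψ x ∈ {z | e z = a} ↔ x ∈ {z | e z = b} := by
      rw [← hi2]
      constructor
      · rintro ⟨y, hy, hxy⟩
        have : y = x := by rw [← hl y, hxy, hl]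
        rw [← this]
        exact hy
      · intro hx
        exact ⟨x, hx, rfl⟩
    exact this
  have hlt : ∀ x, a < e (ψ x) ↔ b < e x := by
    intro x
    rw [lt_iff_le_and_ne, lt_iff_le_and_ne, hle x]
    constructor
    · rintro ⟨h1, h2⟩
      exact ⟨h1, fun h3 => h2 ((heq x).2 h3.symm).symm⟩
    · rintro ⟨h1, h2⟩
      exact ⟨h1, fun h3 => h2 ((heq x).1 h3.symm).symm⟩
  refine ⟨ι, hι, _, _, fun x => Φ 1 (g (ψ' x)),
    (hg.comp_left hΦ').comp_right (e' := e) (c' := a) hψψ hlt heq,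
    (hgt.comp_left hg.smooth hΦ').comp_right (hΦ'.smooth.comp hg.smooth) hψψ
      (fun x hx => (hle (ψ' x)).1 (by rw [hr x]; exact hx)), fun x hx => ?_⟩
  have hx' : e (ψ' x) = b := by
    rw [← heq (ψ' x), hr x]
    exact hx
  show Φ 1 (g (ψ' x)) = f x
  rw [hgf _ hx', hΦ1 _ hx', hr x]

end Pool.Agent.Lib_MP_752436_cv
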