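import Pool.Agent.Lib_MP_752436_rc.Basic

/-!
Transverse ribbon immersions: the property `GoodT` is the property `Good` of
`Lib_MP_752436_rc/Defs.lean` with transverse sheets at all double points.
-/

open MeasureTheory Metric Set
open scoped ContDiff Topology

namespace Pool.Agent.Lib_MP_752436_cv

open Pool.Agent.Lib_MP_752436_gt Pool.Agent.Lib_MP_752436_rb Pool.Agent.Lib_MP_752436_rc

/-- The two sheets of `g` are transverse at all double points in `{c ≤ e}`. -/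
def TransOn (g : E2 → E3) (e : E2 → ℝ) (c : ℝ) : Prop :=
  ∀ x y, c ≤ e x → c ≤ e y → x ≠ y → g x = g y →
    ∀ v : E3, ∃ u w : E2, fderiv ℝ g x u + fderiv ℝ g y w = v

/-- The curve `f | {e = c}` bounds a transverse ribbon immersion of `{c ≤ e}`. -/
def GoodT (f : E2 → E3) (e : E2 → ℝ) (c : ℝ) : Prop :=
  ∃ (ι : Type) (_ : Finite ι) (α β : ι → ℝ → E2) (g : E2 → E3),
    RData g e c α β ∧ TransOn g e c ∧ ∀ x, e x = c → g x = f x

theorem TransOn.comp_left {g : E2 → E3} {e : E2 → ℝ} {c : ℝ} (hg : ContDiff ℝ ∞ g)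
    (h : TransOn g e c) {Φ Φ' : E3 → E3} (hΦ : DiffeoPair Φ Φ') :
    TransOn (fun x => Φ (g x)) e c := by
  intro x y hx hy hxy hgxy v
  have hinj : Function.Injective Φ := fun a b hab => by
    rw [← hΦ.left a, ← hΦ.left b, hab]
  have hgxy' : g x = g y := hinj hgxy
  have hd : ∀ z, fderiv ℝ (fun x => Φ (g x)) z = (fderiv ℝ Φ (g z)).comp (fderiv ℝ g z) :=
    fun z => (((hΦ.smooth.differentiable (by simp)) (g z)).hasFDerivAt.comp z
      ((hg.differentiable (by simp)) z).hasFDerivAt).fderiv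
  obtain ⟨v', hv'⟩ := (hΦ.bijective_fderiv (g x)).2 v
  obtain ⟨u, w, huw⟩ := h x y hx hy hxy hgxy' v'
  refine ⟨u, w, ?_⟩
  rw [hd, hd, ContinuousLinearMap.comp_apply, ContinuousLinearMap.comp_apply, ← hgxy', ← map_add,
    huw, hv']

theorem TransOn.comp_right {g : E2 → E3} {e e' : E2 → ℝ} {c c' : ℝ} (hg : ContDiff ℝ ∞ g)
    (h : TransOn g e c) {ψ φ : E2 → E2} (hψ : DiffeoPair ψ φ)
    (hle : ∀ x, c' ≤ e' x → c ≤ e (φ x)) : TransOn (fun x => g (φ x)) e' c' := by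
  intro x y hx hy hxy hgxy v
  have hd : ∀ z, fderiv ℝ (fun x => g (φ x)) z = (fderiv ℝ g (φ z)).comp (fderiv ℝ φ z) :=
    fun z => (((hg.differentiable (by simp)) (φ z)).hasFDerivAt.comp z
      ((hψ.smooth'.differentiable (by simp)) z).hasFDerivAt).fderiv
  obtain ⟨u, w, huw⟩ := h (φ x) (φ y) (hle x hx) (hle y hy)
    (fun h2 => hxy (by rw [← hψ.right x, ← hψ.right y, h2])) hgxy v
  obtain ⟨u', hu'⟩ := (hψ.symm.bijective_fderiv x).2 u
  obtain ⟨w', hw'⟩ := (hψ.symm.bijective_fderiv y).2 w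
  refine ⟨u', w', ?_⟩
  rw [hd, hd, ContinuousLinearMap.comp_apply, ContinuousLinearMap.comp_apply, hu', hw', huw]

theorem GoodT.congr {f : E2 → E3} {e e' : E2 → ℝ} {c c' : ℝ} (h : GoodT f e c)
    (hlt : ∀ x, c' < e' x ↔ c < e x) (heq : ∀ x, e' x = c' ↔ e x = c) : GoodT f e' c' := by
  obtain ⟨ι, hι, α, β, g, h1, h2, h3⟩ := h
  refine ⟨ι, hι, α, β, g, h1.congr_region hlt heq, ?_, fun x hx => h3 x ((heq x).1 hx)⟩
  have hle : ∀ x, c' ≤ e' x → c ≤ e x := by
    intro x hx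
    rcases hx.lt_or_eq with h4 | h4
    · exact ((hlt x).1 h4).le
    · exact ((heq x).1 h4.symm).ge
  exact fun x y hx hy => h2 x y (hle x hx) (hle y hy)

/-- Above the maximum there is nothing to do. -/
theorem goodT_of_empty {f : E2 → E3} (hf : ContDiff ℝ ∞ f) {e : E2 → ℝ} {c : ℝ}
    (h : ∀ x, e x < c) : GoodT f e c := by
  refine ⟨Empty, inferInstance, fun i => i.elim, fun i => i.elim, f, ⟨hf, ?_, ?_, ?_, ?_⟩, ?_,
    fun _ _ => rfl⟩
  · intro x hx
    exact absurd (h x) (not_lt.2 hx)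
  · intro i
    exact i.elim
  · intro i
    exact i.elim
  · intro x y hx
    exact absurd (h x) (not_lt.2 hx)
  · intro x y hx
    exact absurd (h x) (not_lt.2 hx)

end Pool.Agent.Lib_MP_752436_cv
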