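import Pool.Agent.Lib_MP_752436_cv.TChain
import Pool.Agent.Lib_MP_752436_cv.TThin
import Pool.Agent.Lib_MP_752436_rc.SaddleStep

/-!
Piece T4: the step through a saddle, transverse version of `Lib_MP_752436_rc/Saddle.lean`.
-/

open MeasureTheory Metric Set
open scoped ContDiff Topology

namespace Pool.Agent.Lib_MP_752436_cv

open Pool.Agent.Lib_MP_752436_gt Pool.Agent.Lib_MP_752436_rb Pool.Agent.Lib_MP_752436_rc

theorem exists_stripMapT {f g : E2 → E3} {t : E2 → ℝ} {b : ℝ} {ι : Type} {α β : ι → ℝ → E2}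
    (hf : ContDiff ℝ ∞ f) (ht : ContDiff ℝ ∞ t) (hg : RData g t b α β) (hT : TransOn g t b)
    (hK : IsCompact {x | b ≤ t x}) (hfg : ∀ x, t x = b → g x = f x) {q v : E2} {τ₁ τ₂ r : ℝ}
    (hτ : τ₁ < τ₂) (h₁ : t (q + τ₁ • v) = b) (h₂ : t (q + τ₂ • v) = b)
    (hlt : ∀ τ ∈ Ioo τ₁ τ₂, t (q + τ • v) < b)
    (hball : ∀ τ ∈ Icc τ₁ τ₂, q + τ • v ∈ ball q r)
    (hinj : ∀ x ∈ ball q r, ∀ y, (t y = b ∨ y ∈ ball q r) → f x = f y → x = y)
    (himm : ∀ x ∈ ball q r, Function.Injective (fderiv ℝ f x))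
    (hn₁ : ∀ᶠ x in 𝓝 (q + τ₁ • v), g x = f x) (hn₂ : ∀ᶠ x in 𝓝 (q + τ₂ • v), g x = f x)
    (he₁ : ∀ x, b ≤ t x → g x = g (q + τ₁ • v) → x = q + τ₁ • v)
    (he₂ : ∀ x, b ≤ t x → g x = g (q + τ₂ • v) → x = q + τ₂ • v)
    (htr : ∀ x, b ≤ t x → ∀ τ ∈ Ioo τ₁ τ₂, g x = f (q + τ • v) →
      (∀ (η : E2) (σ : ℝ), fderiv ℝ g x η = σ • fderiv ℝ f (q + τ • v) v → η = 0 ∧ σ = 0) ∧
      ∀ i, ∀ s ∈ Icc (0 : ℝ) 1, g x ≠ g (α i s)) :
    ∃ g₁ : E2 → E3, StripMap f g₁ t q b v τ₁ τ₂ α β ∧ TransOn g₁ t b := by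
  obtain ⟨g₁, hg₁, hgg, hgf⟩ := exists_glue (f := f) (g := g) hf hg.smooth ht hK hlt hn₁ hn₂
  have eqg : ∀ x, b ≤ t x → g₁ x = g x := fun x hx => (hgg x hx).self_of_nhds
  have eqf : ∀ τ ∈ Icc τ₁ τ₂, g₁ (q + τ • v) = f (q + τ • v) := fun τ hτ =>
    (hgf τ hτ).self_of_nhds
  have dg : ∀ x, b ≤ t x → fderiv ℝ g₁ x = fderiv ℝ g x := fun x hx =>
    Filter.EventuallyEq.fderiv_eq (hgg x hx)
  have df : ∀ τ ∈ Icc τ₁ τ₂, fderiv ℝ g₁ (q + τ • v) = fderiv ℝ f (q + τ • v) := fun τ hτ =>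
    Filter.EventuallyEq.fderiv_eq (hgf τ hτ)
  have hα : ∀ i, ∀ s ∈ Icc (0 : ℝ) 1, b ≤ t (α i s) := fun i s hs =>
    ((hg.pair i).inside s hs).le
  have hβ : ∀ i, ∀ s ∈ Icc (0 : ℝ) 1, b ≤ t (β i s) := by
    intro i s hs
    rcases hs.1.eq_or_lt with h1 | h1
    · rw [← h1]
      exact (hg.pair i).left.ge
    · rcases hs.2.eq_or_lt with h2 | h2
      · rw [h2]
        exact (hg.pair i).right.ge
      · exact ((hg.pair i).proper s ⟨h1, h2⟩).le
  have him : ∀ i, g₁ ∘ α i '' Icc 0 1 = g ∘ α i '' Icc 0 1 := by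
    intro i
    exact Set.image_congr fun s hs => eqg _ (hα i s hs)
  have hT₁ : TransOn g₁ t b := by
    intro x y hx hy hxy hgxy
    rw [eqg x hx, eqg y hy] at hgxy
    rw [dg x hx, dg y hy]
    exact hT x y hx hy hxy hgxy
  refine ⟨g₁, ⟨⟨hg₁, ?_, ?_, ?_, ?_⟩, ?_, ?_, ?_, ?_, ?_, ?_, ?_, ?_⟩, hT₁⟩
  · intro x hx
    rw [dg x hx]
    exact hg.immersion x hx
  · intro i
    have h := hg.pair i
    refine ⟨h.arcα, h.arcβ, h.inside, h.proper, h.left, h.right, h.disjoint, ?_⟩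
    intro s hs
    rw [eqg _ (hα i s hs), eqg _ (hβ i s hs)]
    exact h.same s hs
  · intro i j hij
    rw [him i, him j]
    exact hg.disj i j hij
  · intro x y hx hy hxy hgxy
    rw [eqg x hx, eqg y hy] at hgxy
    exact hg.double x y hx hy hxy hgxy
  · intro x hx
    rw [eqg x hx.ge]
    exact hfg x hx
  · intro τ hτ'
    rw [df τ hτ']
    exact himm _ (hball τ hτ')
  · refine ⟨ball q r ∩ {x | ∀ᶠ y in 𝓝 x, g₁ y = f y},
      isOpen_ball.inter isOpen_setOfPred_eventually_nhds, ?_, ?_, ?_⟩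
    · exact fun τ hτ' => ⟨hball τ hτ', hgf τ hτ'⟩
    · intro x hx
      have h1 : ∀ᶠ y in 𝓝 x, g₁ y = f y := hx.2
      exact h1.self_of_nhds
    · intro x hx y hy hxy
      have h1' : ∀ᶠ y in 𝓝 x, g₁ y = f y := hx.2
      have h2' : ∀ᶠ z in 𝓝 y, g₁ z = f z := hy.2
      have h1 : g₁ x = f x := h1'.self_of_nhds
      have h2 : g₁ y = f y := h2'.self_of_nhds
      rw [h1, h2] at hxy
      exact hinj x hx.1 y (Or.inr hy.1) hxy
  · intro x hx hxg
    rw [eqg x hx, eqg _ h₁.ge] at hxg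
    exact he₁ x hx hxg
  · intro x hx hxg
    rw [eqg x hx, eqg _ h₂.ge] at hxg
    exact he₂ x hx hxg
  · intro x hx τ hτ' hxg
    have hτI : τ ∈ Icc τ₁ τ₂ := Ioo_subset_Icc_self hτ'
    rw [eqg x hx.ge, hfg x hx, eqf τ hτI] at hxg
    have h3 := hinj _ (hball τ hτI) x (Or.inl hx) hxg.symm
    have h4 := hlt τ hτ'
    rw [h3, hx] at h4
    exact lt_irrefl _ h4
  · intro x hx τ hτ' hxg
    have hτI : τ ∈ Icc τ₁ τ₂ := Ioo_subset_Icc_self hτ'
    rw [eqg x hx, eqf τ hτI] at hxg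
    rw [dg x hx, df τ hτI]
    exact (htr x hx τ hτ' hxg).1
  · intro x hx τ hτ' hxg i s hs
    have hτI : τ ∈ Icc τ₁ τ₂ := Ioo_subset_Icc_self hτ'
    rw [eqg x hx, eqf τ hτI] at hxg
    rw [eqg x hx, eqg _ (hα i s hs)]
    exact (htr x hx τ hτ' hxg).2 i s hs

theorem goodT_of_saddle {f : E2 → E3} {t : E2 → ℝ} (S : Stg f t) {q : E2} (hq : 0 < t q)
    (hq' : fderiv ℝ t q = 0) (hs : SaddleAt t q) :
    ∃ δ > 0, ∀ a b, t q - δ < a → a < t q → t q < b → b < t q + δ → GoodT f t b → GoodT f t a := by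
  obtain ⟨δ₂, hδ₂, hδ₂t, hslab⟩ := exists_slab S hq hq'
  obtain ⟨r, δ₁, hI, -, -⟩ := exists_inj_near S hq hq' (δ₀ := 1) one_pos
  obtain ⟨ψ, hψ⟩ := exists_bumpFn
  obtain ⟨y₀, hy₀, δ₃, hδ₃, hbox⟩ := exists_sadBox S.smootht hq' hs (half_pos hI.hr)
  refine ⟨min δ₁ (min δ₂ δ₃), lt_min hI.hδ (lt_min hδ₂ hδ₃), ?_⟩
  intro a b ha haq hqb hb hgood
  have hm1 : min δ₁ (min δ₂ δ₃) ≤ δ₁ := min_le_left _ _
  have hm2 : min δ₁ (min δ₂ δ₃) ≤ δ₂ := (min_le_right _ _).trans (min_le_left _ _)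
  have hm3 : min δ₁ (min δ₂ δ₃) ≤ δ₃ := (min_le_right _ _).trans (min_le_right _ _)
  obtain ⟨ι, hι, α, β, g, hg, hgt, hgf⟩ := hgood
  have hAf : (range (fun i => β i 0) ∪ range (fun i => β i 1)).Finite :=
    (finite_range _).union (finite_range _)
  obtain ⟨X, Y, u, v, τ₁, τ₂, hB, hsub, hA1, hA2⟩ := hbox a b haq hqb (by linarith) _ hAf
  have ha0 : 0 < a := by linarith
  have hb0 : 0 < b := by linarith
  -- compactness
  obtain ⟨c, hc, hcK⟩ := S.compact
  have hK0 : IsCompact {x | 0 ≤ t x} := by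
    refine hcK.of_isClosed_subset (isClosed_le continuous_const S.smootht.continuous) ?_
    intro x hx
    have h0 : (0 : ℝ) ≤ t x := hx
    exact hc.le.trans h0
  have hK : IsCompact {x | b ≤ t x} := by
    refine hK0.of_isClosed_subset (isClosed_le continuous_const S.smootht.continuous) ?_
    intro x hx
    have h0 : b ≤ t x := hx
    exact hb0.le.trans h0
  have hKb : IsCompact {x | t x = b} := by
    refine hK.of_isClosed_subset (isClosed_eq S.smootht.continuous continuous_const) ?_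
    intro x hx
    exact le_of_eq (Eq.symm hx)
  have hv : v ≠ 0 := by
    intro h0
    have := hB.frame.Yv
    rw [h0, map_zero] at this
    exact one_ne_zero this.symm
  have hτ : τ₁ < τ₂ := hB.h₁.trans hB.h₂
  -- the core is in the small ball
  have hXv : ∀ τ : ℝ, X (q + τ • v - q) = 0 := by
    intro τ
    rw [add_sub_cancel_left, map_smul, hB.frame.Xv, smul_zero]
  have hYv : ∀ τ : ℝ, Y (q + τ • v - q) = τ := by
    intro τ
    rw [add_sub_cancel_left, map_smul, hB.frame.Yv, smul_eq_mul, mul_one]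
  have hcball' : ∀ τ ∈ Icc τ₁ τ₂, q + τ • v ∈ ball q (r / 2) := by
    intro τ hτ'
    refine hsub _ ?_ ?_
    · rw [hXv, abs_zero]
      positivity
    · rw [hYv, abs_le]
      constructor
      · linarith [hB.h₁y, hτ'.1]
      · linarith [hB.h₂y, hτ'.2]
  have hcball : ∀ τ ∈ Icc τ₁ τ₂, q + τ • v ∈ ball q r := fun τ hτ' =>
    ball_subset_ball (by linarith [hI.hr]) (hcball' τ hτ')
  have hlevel : ∀ x, t x = b → |t x - t q| ≤ δ₁ := by
    intro x hx
    rw [hx, abs_le]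
    constructor <;> linarith
  have hlt : ∀ τ ∈ Ioo τ₁ τ₂, t (q + τ • v) < b := fun τ hτ' => hB.core_lt hτ'
  -- the end points of the core are not double points of `g`
  have hendaux : ∀ p, t p = b → p ∉ range (fun i => β i 0) ∪ range (fun i => β i 1) →
      ∀ x, b ≤ t x → g x = g p → x = p := by
    intro p hp hpA x hx hxp
    by_contra hne
    obtain ⟨i, s, hs, h1 | h1⟩ := hg.double x p hx hp.ge hne hxp
    · -- p = β i s
      rcases eq_or_lt_of_le hs.1 with h0 | h0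
      · exact hpA (Or.inl ⟨i, by simp only [h1.2, ← h0]⟩)
      · rcases eq_or_lt_of_le hs.2 with h2 | h2
        · exact hpA (Or.inr ⟨i, by simp only [h1.2, h2]⟩)
        · have := (hg.pair i).proper s ⟨h0, h2⟩
          rw [← h1.2, hp] at this
          exact lt_irrefl _ this
    · have := (hg.pair i).inside s hs
      rw [← h1.2, hp] at this
      exact lt_irrefl _ this
  have he₁ := hendaux _ hB.end₁ hA1
  have he₂ := hendaux _ hB.end₂ hA2
  -- `g` is injective on the level curve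
  have hfinj : ∀ x y, t x = b → t y = b → f x = f y → x = y := by
    intro x y hx hy hxy
    exact S.inj x y (by rw [hx]; exact hb0.le) (by rw [hy]; exact hb0.le) hxy (hx.trans hy.symm)
  have hginj : InjOn g {x | t x = b} := by
    intro x hx y hy hxy
    have hx' : t x = b := hx
    have hy' : t y = b := hy
    rw [hgf x hx', hgf y hy'] at hxy
    exact hfinj x y hx' hy' hxy
  have hends : q + τ₁ • v ≠ q + τ₂ • v := by
    intro h0
    have h1 := congrArg (fun z => Y (z - q)) h0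
    simp only [hYv] at h1
    exact hτ.ne h1
  -- collar
  obtain ⟨Φ₁, Φ₁', hΦ₁, hb1, hn11, hn12⟩ := collar S.smoothf hg.smooth S.smootht hKb hgf hginj
    (fun x hx => hg.immersion x (le_of_eq (Eq.symm hx))) hB.end₁ hB.end₂ hends hB.end_ne.1
    hB.end_ne.2 (hI.imm _ (hcball τ₁ (left_mem_Icc.2 hτ.le)))
    (hI.imm _ (hcball τ₂ (right_mem_Icc.2 hτ.le)))
  have hg₁ : RData (fun x => Φ₁ (g x)) t b α β := hg.comp_left hΦ₁
  have hgt₁ : TransOn (fun x => Φ₁ (g x)) t b := hgt.comp_left hg.smooth hΦ₁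
  have hΦ₁inj : ∀ x y, Φ₁ x = Φ₁ y → x = y := fun x y hxy => by
    rw [← hΦ₁.left x, hxy, hΦ₁.left]
  have he₁' : ∀ x, b ≤ t x → Φ₁ (g x) = Φ₁ (g (q + τ₁ • v)) → x = q + τ₁ • v :=
    fun x hx hxy => he₁ x hx (hΦ₁inj _ _ hxy)
  have he₂' : ∀ x, b ≤ t x → Φ₁ (g x) = Φ₁ (g (q + τ₂ • v)) → x = q + τ₂ • v :=
    fun x hx hxy => he₂ x hx (hΦ₁inj _ _ hxy)
  have hcore : ∀ τ ∈ Icc τ₁ τ₂, ∀ x, (t x = b ∨ ∃ σ ∈ Icc τ₁ τ₂, x = q + σ • v) →
      f x = f (q + τ • v) → x = q + τ • v := by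
    intro τ hτ' x hx hxy
    refine (hI.inj _ (hcball τ hτ') x ?_ hxy.symm).symm
    rcases hx with hx | ⟨σ, hσ, rfl⟩
    · exact hlevel x hx
    · exact hI.near _ (hcball σ hσ)
  -- transversality
  obtain ⟨Φ₂, Φ₂', hΦ₂, hb2, hn21, hn22, htr⟩ := transv S.smoothf S.smootht hg₁ hK hb1 hτ
    hB.end₁ hB.end₂ hlt hcore hv (fun τ hτ' => hI.imm _ (hcball τ hτ')) hn11 hn12 he₁' he₂'
  have hg₂ : RData (fun x => Φ₂ (Φ₁ (g x))) t b α β := hg₁.comp_left hΦ₂
  have hgt₂ : TransOn (fun x => Φ₂ (Φ₁ (g x))) t b := hgt₁.comp_left hg₁.smooth hΦ₂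
  have hΦ₂inj : ∀ x y, Φ₂ x = Φ₂ y → x = y := fun x y hxy => by
    rw [← hΦ₂.left x, hxy, hΦ₂.left]
  -- glueing
  obtain ⟨g₃, hS, hST⟩ := exists_stripMapT (r := r) S.smoothf S.smootht hg₂ hgt₂ hK hb2 hτ
    hB.end₁ hB.end₂ hlt hcball
    (fun x hx y hy hxy => hI.inj x hx y (by
      rcases hy with hy | hy
      · exact hlevel y hy
      · exact hI.near y hy) hxy) hI.imm hn21 hn22
    (fun x hx hxy => he₁' x hx (hΦ₂inj _ _ hxy)) (fun x hx hxy => he₂' x hx (hΦ₂inj _ _ hxy))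
    (fun x hx τ hτ' hxy => ⟨(htr x hx τ hτ' hxy).1, fun i s hs' h0 =>
      (htr x hx τ hτ' hxy).2 i s hs' (hΦ₂inj _ _ h0)⟩)
  -- the strip
  have hM : b < t q + (b - t q + 1) := by linarith
  obtain ⟨w₀, hw₀, hw⟩ := goodT_ew hB hS hST hK hψ hM
  obtain ⟨w₁, hw₁, hw₁y, hw₁'⟩ := hB.exists_ew hψ hM
  have hw0 : 0 < min w₀ w₁ / 2 := by
    have := lt_min hw₀ hw₁
    linarith
  have hwlt : min w₀ w₁ / 2 < min w₀ w₁ := by linarith
  generalize hwd : min w₀ w₁ / 2 = w at hw0 hwlt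
  have hgood' := hw w hw0 (hwlt.trans_le (min_le_left _ _))
  obtain ⟨hsupp, hregbox⟩ := hw₁' w hw0 (hwlt.trans_le (min_le_right _ _))
  have hwy : w < y₀ := (hwlt.trans_le (min_le_right _ _)).trans_le hw₁y
  have hle : ∀ z, t z ≤ ew t ψ X Y q (b - t q + 1) y₀ w z :=
    le_ew hψ (by linarith) w
  have hsup : ∀ z, ew t ψ X Y q (b - t q + 1) y₀ w z ≠ t z →
      |X (z - q)| < w ∧ |Y (z - q)| < 2 * y₀ := fun z hz => ew_support hψ hy₀ hw0 hz
  have hsm : ContDiff ℝ ∞ (ew t ψ X Y q (b - t q + 1) y₀ w) := contDiff_ew S.smootht hψ _ _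
  generalize ew t ψ X Y q (b - t q + 1) y₀ w = e at hgood' hsupp hregbox hle hsup hsm
  have hout : ∀ z ∉ ball q (r / 2), e z = t z := by
    intro z hz
    by_contra hne
    obtain ⟨h1, h2⟩ := hsup z hne
    exact hz (hsub z (by linarith) h2.le)
  have hcomp : IsCompact {x | (0 : ℝ) ≤ e x} := by
    refine (hK0.union (isCompact_box hB.frame q (2 * y₀) (2 * y₀))).of_isClosed_subset
      (isClosed_le continuous_const hsm.continuous) ?_
    intro x hx
    have h0 : (0 : ℝ) ≤ e x := hx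
    by_cases hne : e x = t x
    · exact Or.inl (h0.trans_eq hne)
    · obtain ⟨h1, h2⟩ := hsup x hne
      exact Or.inr ⟨by linarith, h2.le⟩
  have hG : GoodT f e a := by
    refine goodT_of_regular S.smoothf hsm (haq.trans hqb).le ha0 hcomp ?_ ?_ ?_ hgood'
    · intro x hx1 hx2
      by_cases hbx : |X (x - q)| ≤ 2 * y₀ ∧ |Y (x - q)| ≤ 2 * y₀
      · exact hregbox x hbx.1 hbx.2 hx2
      · have hcl : IsClosed {z : E2 | |X (z - q)| ≤ 2 * y₀ ∧ |Y (z - q)| ≤ 2 * y₀} :=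
          (isCompact_box hB.frame q (2 * y₀) (2 * y₀)).isClosed
        have hev : e =ᶠ[𝓝 x] t := by
          filter_upwards [hcl.isOpen_compl.mem_nhds hbx] with z hz
          by_contra hne
          obtain ⟨h1, h2⟩ := hsup z hne
          exact hz ⟨by linarith, h2.le⟩
        rw [hev.fderiv_eq]
        have hex : e x = t x := hev.eq_of_nhds
        refine hslab x ?_ ?_
        · rw [hex] at hx1 hx2
          rw [abs_le]
          constructor <;> linarith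
        · intro h0
          apply hbx
          rw [h0, sub_self, map_zero, map_zero, abs_zero]
          exact ⟨by positivity, by positivity⟩
    · exact level_inj S hI (fun z hz => hout z (fun h0 => hz (ball_subset_ball
        (by linarith [hI.hr]) h0))) (by linarith) (by linarith)
    · intro x hx1 _
      exact level_imm S hI (r' := r / 2) (by linarith [hI.hr])
        (fun z hz => hout z (fun h0 => hz (ball_subset_closedBall h0))) (by linarith) x hx1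
  refine hG.congr ?_ ?_
  · intro x
    by_cases hne : e x = t x
    · rw [hne]
    · exact ⟨fun _ => (hsupp x hne).trans_le (hle x), fun _ => hsupp x hne⟩
  · intro x
    by_cases hne : e x = t x
    · rw [hne]
    · have h1 := hsupp x hne
      constructor
      · intro h0
        exact absurd h0 h1.ne'
      · intro h0
        exact absurd h0 (h1.trans_le (hle x)).ne'

end Pool.Agent.Lib_MP_752436_cv
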