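import Pool.Agent.Lib_MP_752436_cv.TChain
import Pool.Agent.Lib_MP_752436_rc.MaxStep

/-!
Piece T2: the step through a maximum, transverse version of `Lib_MP_752436_rc/MaxStep.lean`.
-/

open MeasureTheory Metric Set
open scoped ContDiff Topology

namespace Pool.Agent.Lib_MP_752436_cv

open Pool.Agent.Lib_MP_752436_gt Pool.Agent.Lib_MP_752436_rb Pool.Agent.Lib_MP_752436_rc

/-- **The step through a maximum.** -/
theorem goodT_of_max {f : E2 → E3} {t : E2 → ℝ} (S : Stg f t) {p : E2} (hp : 0 < t p)
    (hp' : fderiv ℝ t p = 0) (hmax : MaxAt t p) :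
    ∃ δ > 0, ∀ b ∈ Ioo (t p) (t p + δ), ∀ a ∈ Ioo (t p - δ) (t p), GoodT f t b → GoodT f t a := by
  obtain ⟨r₁, hr₁, hmax⟩ := hmax
  obtain ⟨δ₁, hδ₁, hδ₁t, hslab⟩ := exists_slab S hp hp'
  obtain ⟨r, δ, hI, hr, hδ⟩ := exists_inj_near S hp hp' (δ₀ := min r₁ δ₁) (lt_min hr₁ hδ₁)
  have hr0 := hI.hr
  have hrr₁ : r ≤ r₁ := hr.trans (min_le_left _ _)
  have hδδ₁ : δ ≤ δ₁ := hδ.trans (min_le_right _ _)
  have htd : Differentiable ℝ t := S.smootht.differentiable (by simp)
  -- `t < t p` in the ball
  have hlt : ∀ z ∈ ball p r, z ≠ p → t z < t p := by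
    intro z hz hzp
    have hder : ∀ s : ℝ, HasDerivAt (fun s : ℝ => t (p + s • (z - p)))
        (fderiv ℝ t (p + s • (z - p)) (z - p)) s := by
      intro s
      have h2 : HasDerivAt (fun s : ℝ => p + s • (z - p)) (z - p) s := by
        simpa using ((hasDerivAt_id s).smul_const (z - p)).const_add p
      exact (htd (p + s • (z - p))).hasFDerivAt.comp_hasDerivAt s h2
    have hanti : StrictAntiOn (fun s : ℝ => t (p + s • (z - p))) (Icc 0 1) := by
      refine strictAntiOn_of_deriv_neg (convex_Icc _ _)
        (fun s _ => (hder s).continuousAt.continuousWithinAt) fun s hs => ?_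
      rw [(hder s).deriv]
      have hs' : s ∈ Ioo (0 : ℝ) 1 := by rwa [interior_Icc] at hs
      have h1 : p + s • (z - p) ∈ ball p r₁ := by
        rw [mem_ball, dist_eq_norm, add_sub_cancel_left, norm_smul,
          Real.norm_of_nonneg hs'.1.le]
        have h3 : ‖z - p‖ < r := by
          rw [← dist_eq_norm]
          exact hz
        nlinarith [norm_nonneg (z - p), hs'.2]
      have h2 : p + s • (z - p) ≠ p := by
        intro h
        have h4 : s • (z - p) = 0 := by simpa using h
        rcases smul_eq_zero.1 h4 with h5 | h5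
        · exact hs'.1.ne' h5
        · exact hzp (sub_eq_zero.1 h5)
      have h3 := hmax _ h1 h2
      rw [add_sub_cancel_left, map_smul, smul_eq_mul] at h3
      by_contra hcon
      push Not at hcon
      nlinarith [hs'.1]
    have := hanti (a := 0) (b := 1) ⟨le_rfl, zero_le_one⟩ ⟨zero_le_one, le_rfl⟩ one_pos
    simpa using this
  have hle : ∀ z ∈ ball p r, t z ≤ t p := by
    intro z hz
    by_cases h : z = p
    · rw [h]
    · exact (hlt z hz h).le
  refine ⟨δ, hI.hδ, ?_⟩
  rintro b ⟨hbt, hb⟩ a ⟨ha, hat⟩ hg
  obtain ⟨c', hc', hcomp⟩ := S.compact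
  have ha0 : 0 < a := by linarith [hI.hδt]
  -- a null level
  obtain ⟨b₁, ⟨hb₁, hb₁b⟩, hnull⟩ := exists_null_level S.smootht.continuous hbt
  have hcomp' : ∀ s, c' ≤ s → IsCompact {x | s ≤ t x} := fun s hs =>
    hcomp.of_isClosed_subset (isClosed_le continuous_const S.smootht.continuous)
      fun x hx => hs.trans hx
  have hg₁ : GoodT f t b₁ := by
    refine goodT_of_regular S.smoothf S.smootht hb₁b.le (a' := 0) (by linarith) (hcomp' 0 hc'.le) ?_ ?_
      ?_ hg
    · intro x hx1 hx2
      refine hslab x ?_ ?_
      · rw [abs_le]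
        constructor <;> linarith
      · rintro rfl
        linarith
    · intro x y hx1 hx2 hxy hfxy
      exact S.inj x y (by linarith) (by linarith) hfxy hxy
    · intro x hx1 hx2
      exact S.imm x (by linarith)
  obtain ⟨ι, hι, α, β, g, hgd, hgt, hgb⟩ := hg₁
  -- the escape
  have hCc : IsCompact {z | t z = b₁} :=
    (hcomp' 0 hc'.le).of_isClosed_subset (isClosed_eq S.smootht.continuous continuous_const)
      fun x (hx : t x = b₁) => show 0 ≤ t x by linarith
  have hfp : f p ∉ f '' {z | t z = b₁} := by
    rintro ⟨y, hy, hfy⟩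
    have hy' : t y = b₁ := hy
    have h1 := hI.inj p (mem_ball_self hr0) y (by
      rw [hy', abs_le]
      constructor <;> linarith) hfy.symm
    rw [h1, hy'] at hb₁
    exact lt_irrefl _ hb₁
  obtain ⟨Φ, Φ', hΦ, hfix, hΨK⟩ := exists_escape S.smoothf hCc hnull (y := f p)
    (fun x hx h => hfp ⟨x, hx, h⟩)
    (B := g '' {x | b₁ ≤ t x}) ((hcomp' b₁ (by linarith)).image hgd.smooth.continuous)
  have hgd₁ : RData (fun x => Φ (g x)) t b₁ α β := hgd.comp_left hΦ
  have hgt₁ : TransOn (fun x => Φ (g x)) t b₁ := hgt.comp_left hgd.smooth hΦ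
  set g₁ : E2 → E3 := fun x => Φ (g x) with hg₁def
  have hg₁b : ∀ x, t x = b₁ → g₁ x = f x := by
    intro x hx
    rw [hg₁def]
    simp only
    rw [hgb x hx, hfix x hx]
  have hfp₁ : f p ∉ g₁ '' {x | b₁ ≤ t x} := by
    rintro ⟨x, hx, hgx⟩
    exact hΨK (g x) ⟨x, hx, rfl⟩ hgx
  have hK₁ : IsClosed (g₁ '' {x | b₁ ≤ t x}) :=
    ((hcomp' b₁ (by linarith)).image hgd₁.smooth.continuous).isClosed
  -- the radius
  obtain ⟨ρ₀, hρ₀, hρ₀s⟩ := Metric.isOpen_iff.1
    ((hK₁.isOpen_compl.preimage S.smoothf.continuous).inter
      (isOpen_lt (continuous_const (y := a)) S.smootht.continuous)) p ⟨hfp₁, hat⟩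
  obtain ⟨ρ, hρ, hρρ₀, hρr⟩ : ∃ ρ : ℝ, 0 < ρ ∧ ρ < ρ₀ ∧ ρ < r := by
    have h1 : 0 < min ρ₀ r := lt_min hρ₀ hr0
    exact ⟨min ρ₀ r / 2, by positivity, by
      have := min_le_left ρ₀ r
      linarith, by
      have := min_le_right ρ₀ r
      linarith⟩
  have hρK : ∀ x ∈ closedBall p ρ, ∀ y, b₁ ≤ t y → f x ≠ g₁ y := by
    intro x hx y hy hxy
    exact (hρ₀s (closedBall_subset_ball hρρ₀ hx)).1 ⟨y, hy, hxy.symm⟩
  have hρa : ∀ x ∈ closedBall p ρ, a < t x := fun x hx =>
    (hρ₀s (closedBall_subset_ball hρρ₀ hx)).2
  -- the new height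
  set M : ℝ := b₁ - t p + 1 with hM
  have hM0 : 0 < M := by linarith
  set e : E2 → ℝ := fun z => t z + M * radBump p ρ z with he
  have hes : ContDiff ℝ ∞ e := S.smootht.add (contDiff_const.mul (contDiff_radBump p ρ))
  have heout : ∀ z, z ∉ closedBall p ρ → e z = t z := by
    intro z hz
    rw [he]
    simp only
    rw [radBump_zero hρ hz]
    ring
  have hge : ∀ z, t z ≤ e z := by
    intro z
    have := mul_nonneg hM0.le (radBump_nonneg p ρ z)
    rw [he]
    simp only
    linarith
  have hhigh : ∀ z, t p < t z → e z = t z := by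
    intro z hz
    apply heout
    intro h
    exact absurd (hle z (closedBall_subset_ball hρr h)) (not_le.2 hz)
  -- the new map
  let η : ContDiffBump p := ⟨(ρ + r) / 2, r, by positivity, by linarith⟩
  set g₂ : E2 → E3 := fun z => g₁ z + η z • (f z - g₁ z) with hg₂
  have hg₂s : ContDiff ℝ ∞ g₂ :=
    hgd₁.smooth.add (η.contDiff.smul (S.smoothf.sub hgd₁.smooth))
  have hg₂in : ∀ z ∈ ball p ((ρ + r) / 2), g₂ z = f z := by
    intro z hz
    have : η z = 1 := η.one_of_mem_closedBall (ball_subset_closedBall hz)
    rw [hg₂]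
    simp [this]
  have hg₂out : ∀ z, t p < t z → g₂ z = g₁ z := by
    intro z hz
    have : η z = 0 := by
      apply η.zero_of_le_dist
      by_contra hcon
      push Not at hcon
      exact absurd (hle z hcon) (not_le.2 hz)
    rw [hg₂]
    simp [this]
  have hcl : ∀ x ∈ closedBall p ρ, x ∈ ball p ((ρ + r) / 2) := fun x hx =>
    closedBall_subset_ball (by linarith) hx
  have hcase : ∀ x, b₁ ≤ e x → x ∈ closedBall p ρ ∨ b₁ ≤ t x := by
    intro x hx
    by_cases h : x ∈ closedBall p ρ
    · exact Or.inl h
    · rw [heout x h] at hx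
      exact Or.inr hx
  have hgood : GoodT f e b₁ := by
    refine ⟨ι, hι, α, β, g₂, ⟨hg₂s, ?_, ?_, ?_, ?_⟩, ?_, ?_⟩
    · intro x hx
      rcases hcase x hx with h | h
      · have hev : g₂ =ᶠ[𝓝 x] f := by
          filter_upwards [isOpen_ball.mem_nhds (hcl x h)] with z hz
          exact hg₂in z hz
        rw [hev.fderiv_eq]
        exact hI.imm x (closedBall_subset_ball hρr h)
      · have hev : g₂ =ᶠ[𝓝 x] g₁ := by
          filter_upwards [(isOpen_lt continuous_const S.smootht.continuous).mem_nhds
            (show t p < t x by linarith)] with z hz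
          exact hg₂out z hz
        rw [hev.fderiv_eq]
        exact hgd₁.immersion x h
    · intro i
      have h := hgd₁.pair i
      have hβ : ∀ s ∈ Icc (0 : ℝ) 1, b₁ ≤ t (β i s) := by
        intro s hs
        rcases hs.1.eq_or_lt with h0 | h0
        · rw [← h0]
          exact h.left.ge
        rcases hs.2.eq_or_lt with h1 | h1
        · rw [h1]
          exact h.right.ge
        exact (h.proper s ⟨h0, h1⟩).le
      refine ⟨h.arcα, h.arcβ, ?_, ?_, ?_, ?_, h.disjoint, ?_⟩
      · intro s hs
        exact (h.inside s hs).trans_le (hge _)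
      · intro s hs
        exact (h.proper s hs).trans_le (hge _)
      · rw [hhigh _ (by rw [h.left]; exact hb₁)]
        exact h.left
      · rw [hhigh _ (by rw [h.right]; exact hb₁)]
        exact h.right
      · intro s hs
        rw [hg₂out _ (hb₁.trans (h.inside s hs)), hg₂out _ (hb₁.trans_le (hβ s hs))]
        exact h.same s hs
    · intro i j hij
      have h := hgd₁.disj i j hij
      have himg : ∀ i, g₂ ∘ α i '' Icc 0 1 = g₁ ∘ α i '' Icc 0 1 := by
        intro i
        refine image_congr fun s hs => ?_
        exact hg₂out _ (hb₁.trans ((hgd₁.pair i).inside s hs))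
      rw [himg, himg]
      exact h
    · intro x y hx hy hxy hgxy
      rcases hcase x hx with h | h <;> rcases hcase y hy with h' | h'
      · rw [hg₂in x (hcl x h), hg₂in y (hcl y h')] at hgxy
        exact absurd (hI.inj x (closedBall_subset_ball hρr h) y
          (hI.near y (closedBall_subset_ball hρr h')) hgxy) hxy
      · rw [hg₂in x (hcl x h), hg₂out y (by linarith)] at hgxy
        exact absurd hgxy (hρK x h y h')
      · rw [hg₂in y (hcl y h'), hg₂out x (by linarith)] at hgxy
        exact absurd hgxy.symm (hρK y h' x h)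
      · rw [hg₂out x (by linarith), hg₂out y (by linarith)] at hgxy
        exact hgd₁.double x y h h' hxy hgxy
    · intro x y hx hy hxy hgxy
      rcases hcase x hx with h | h <;> rcases hcase y hy with h' | h'
      · rw [hg₂in x (hcl x h), hg₂in y (hcl y h')] at hgxy
        exact absurd (hI.inj x (closedBall_subset_ball hρr h) y
          (hI.near y (closedBall_subset_ball hρr h')) hgxy) hxy
      · rw [hg₂in x (hcl x h), hg₂out y (by linarith)] at hgxy
        exact absurd hgxy (hρK x h y h')
      · rw [hg₂in y (hcl y h'), hg₂out x (by linarith)] at hgxy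
        exact absurd hgxy.symm (hρK y h' x h)
      · rw [hg₂out x (by linarith), hg₂out y (by linarith)] at hgxy
        have hev : ∀ z, b₁ ≤ t z → g₂ =ᶠ[𝓝 z] g₁ := by
          intro z hz
          filter_upwards [(isOpen_lt continuous_const S.smootht.continuous).mem_nhds
            (show t p < t z by linarith)] with z' hz'
          exact hg₂out z' hz'
        rw [(hev x h).fderiv_eq, (hev y h').fderiv_eq]
        exact hgt₁ x y h h' hxy hgxy
    · intro x hx
      rcases hcase x hx.ge with h | h
      · exact hg₂in x (hcl x h)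
      · rw [hg₂out x (by linarith)]
        apply hg₁b
        rw [hhigh x (by linarith)] at hx
        exact hx
  -- down to `a`
  have hgood' : GoodT f e a := by
    refine goodT_of_regular S.smoothf hes (a := a) (b := b₁) (a' := 0) (by linarith) ha0 ?_ ?_ ?_ ?_
      hgood
    · refine ((hcomp' 0 hc'.le).union (isCompact_closedBall p ρ)).of_isClosed_subset
        (isClosed_le continuous_const hes.continuous) ?_
      intro x hx
      by_cases h : x ∈ closedBall p ρ
      · exact Or.inr h
      · left
        have hx' : 0 ≤ e x := hx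
        rwa [heout x h] at hx'
    · intro x hx1 hx2 h0
      by_cases h : x ∈ closedBall p ρ
      · by_cases hxp : x = p
        · rw [hxp] at hx2
          have : e p = t p + M := by
            rw [he]
            simp only
            rw [radBump_one]
            ring
          linarith
        · have h1 : fderiv ℝ e x = fderiv ℝ t x + M • fderiv ℝ (radBump p ρ) x := by
            have h2 : HasFDerivAt e (fderiv ℝ t x + M • fderiv ℝ (radBump p ρ) x) x :=
              (htd x).hasFDerivAt.add
                ((((contDiff_radBump p ρ).differentiable (by simp) x).hasFDerivAt).const_smul M)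
            exact h2.fderiv
          have h3 : fderiv ℝ e x (x - p) < 0 := by
            rw [h1]
            have h4 := hmax x (ball_subset_ball hrr₁ (closedBall_subset_ball hρr h)) hxp
            have h5 := fderiv_radBump p hρ x
            simp only [add_apply, smul_apply, smul_eq_mul]
            nlinarith
          rw [h0] at h3
          simp at h3
      · have hxp : x ≠ p := by
          rintro rfl
          exact h (mem_closedBall_self hρ.le)
        have hev : e =ᶠ[𝓝 x] t := by
          filter_upwards [isClosed_closedBall.isOpen_compl.mem_nhds h] with z hz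
          exact heout z hz
        rw [heout x h] at hx1 hx2
        rw [hev.fderiv_eq] at h0
        refine hslab x ?_ hxp h0
        rw [abs_le]
        constructor <;> linarith
    · exact level_inj S hI (fun z hz => heout z fun h => hz (closedBall_subset_ball hρr h))
        (by linarith) (by linarith)
    · intro x hx1 hx2
      exact level_imm S hI hρr heout (by linarith : t p - δ ≤ a) x hx1
  refine hgood'.congr ?_ ?_
  · intro x
    by_cases h : x ∈ closedBall p ρ
    · exact ⟨fun _ => (hρa x h).trans_le (hge x), fun _ => hρa x h⟩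
    · rw [heout x h]
  · intro x
    by_cases h : x ∈ closedBall p ρ
    · have h1 := hρa x h
      have h2 := hge x
      constructor
      · intro h3
        linarith
      · intro h3
        linarith
    · rw [heout x h]

end Pool.Agent.Lib_MP_752436_cv
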