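import Pool.Agent.Lib_MP_752436_cv.TDefs

/-!
Transversality of two sheets is an open condition.
-/

open MeasureTheory Metric Set Filter
open scoped ContDiff Topology

namespace Pool.Agent.Lib_MP_752436_cv

open Pool.Agent.Lib_MP_752436_gt Pool.Agent.Lib_MP_752436_rb Pool.Agent.Lib_MP_752436_rc

/-- Surjectivity is an open condition. -/
theorem eventually_surjective {P E F : Type*} [TopologicalSpace P] [NormedAddCommGroup E]
    [NormedSpace ℝ E] [NormedAddCommGroup F] [NormedSpace ℝ F] [FiniteDimensional ℝ F]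
    {L : P → E →L[ℝ] F} {p₀ : P} (hL : ContinuousAt L p₀) (hs : Function.Surjective (L p₀)) :
    ∀ᶠ p in 𝓝 p₀, Function.Surjective (L p) := by
  obtain ⟨R₀, hR₀⟩ := (L p₀).toLinearMap.exists_rightInverse_of_surjective
    (LinearMap.range_eq_top.2 hs)
  set R : F →L[ℝ] E := R₀.toContinuousLinearMap with hR
  have h0 : (L p₀).comp R = ContinuousLinearMap.id ℝ F := by
    ext v
    have := congrArg (fun l : F →ₗ[ℝ] F => l v) hR₀
    show (L p₀) (R₀ v) = v
    simpa using this
  have : CompleteSpace F := FiniteDimensional.complete ℝ F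
  have hc : ContinuousAt (fun p => (L p).comp R) p₀ := hL.clm_comp continuousAt_const
  have hu : ∀ᶠ p in 𝓝 p₀, IsUnit ((L p).comp R : F →L[ℝ] F) := by
    refine hc.eventually (Units.isOpen.mem_nhds ?_)
    show IsUnit ((L p₀).comp R : F →L[ℝ] F)
    rw [h0]
    exact isUnit_one
  filter_upwards [hu] with p hp
  obtain ⟨U, hU⟩ := hp
  intro v
  refine ⟨R ((↑U⁻¹ : F →L[ℝ] F) v), ?_⟩
  have h1 : ((L p).comp R) ((↑U⁻¹ : F →L[ℝ] F) v) = v := by
    rw [← hU]
    have h2 : ((U : F →L[ℝ] F) * (↑U⁻¹ : F →L[ℝ] F)) v = v := by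
      rw [U.mul_inv]
      rfl
    exact h2
  exact h1

/-- The sheets of `g` at `x` and `z` are transverse. -/
def TransAt (g : E2 → E3) (p : E2 × E2) : Prop :=
  ∀ v : E3, ∃ u w : E2, fderiv ℝ g p.1 u + fderiv ℝ g p.2 w = v

theorem transAt_iff {g : E2 → E3} {p : E2 × E2} : TransAt g p ↔
    Function.Surjective ((fderiv ℝ g p.1).coprod (fderiv ℝ g p.2)) := by
  constructor
  · intro h v
    obtain ⟨u, w, huw⟩ := h v
    exact ⟨(u, w), by simpa using huw⟩
  · intro h v
    obtain ⟨⟨u, w⟩, huw⟩ := h v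
    exact ⟨u, w, by simpa using huw⟩

theorem isOpen_transAt {g : E2 → E3} (hg : ContDiff ℝ ∞ g) : IsOpen {p | TransAt g p} := by
  rw [isOpen_iff_mem_nhds]
  intro p hp
  have hc : Continuous fun p : E2 × E2 => (fderiv ℝ g p.1).coprod (fderiv ℝ g p.2) := by
    have h1 : Continuous (fderiv ℝ g) := hg.continuous_fderiv (by simp)
    have h2 : Continuous fun p : E2 × E2 => fderiv ℝ g p.1 := h1.comp continuous_fst
    have h3 : Continuous fun p : E2 × E2 => fderiv ℝ g p.2 := h1.comp continuous_snd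
    have h4 : (fun p : E2 × E2 => (fderiv ℝ g p.1).coprod (fderiv ℝ g p.2)) = fun p =>
        (fderiv ℝ g p.1).comp (ContinuousLinearMap.fst ℝ E2 E2) +
          (fderiv ℝ g p.2).comp (ContinuousLinearMap.snd ℝ E2 E2) := by
      funext p
      ext <;> simp
    rw [h4]
    exact (h2.clm_comp continuous_const).add (h3.clm_comp continuous_const)
  have hev := eventually_surjective hc.continuousAt (transAt_iff.1 hp)
  filter_upwards [hev] with q hq
  exact transAt_iff.2 hq

/-- A sheet and a direction which is not tangent to it. -/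
theorem transAt_of_strip {g : E2 → E3} {x z v : E2}
    (h : ∀ (η : E2) (σ : ℝ), fderiv ℝ g x η = σ • fderiv ℝ g z v → η = 0 ∧ σ = 0) :
    TransAt g (x, z) := by
  set L : E2 × ℝ →ₗ[ℝ] E3 :=
    { toFun := fun q => fderiv ℝ g x q.1 - q.2 • fderiv ℝ g z v
      map_add' := fun a b => by
        simp only [Prod.fst_add, Prod.snd_add, map_add, add_smul]
        abel
      map_smul' := fun r a => by
        simp only [Prod.smul_fst, Prod.smul_snd, map_smul, smul_eq_mul, mul_smul, smul_sub,
          RingHom.id_apply] } with hL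
  have hinj : Function.Injective L := by
    rw [injective_iff_map_eq_zero]
    rintro ⟨η, σ⟩ h0
    obtain ⟨h1, h2⟩ := h η σ (sub_eq_zero.1 h0)
    rw [h1, h2]
    rfl
  have hsurj : Function.Surjective L := by
    have hfin : Module.finrank ℝ (E2 × ℝ) = Module.finrank ℝ E3 := by
      simp
    exact (LinearMap.injective_iff_surjective_of_finrank_eq_finrank hfin).1 hinj
  intro w
  obtain ⟨⟨η, σ⟩, h1⟩ := hsurj w
  refine ⟨η, -(σ • v), ?_⟩
  rw [map_neg, map_smul, ← sub_eq_add_neg]
  exact h1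

end Pool.Agent.Lib_MP_752436_cv
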